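import Pool.Agent.H74.FL.Path

/-!
# MP_ae266a_pr (lower bound): black squares and the edges of a path in them
-/

set_option autoImplicit false

namespace Pool.Agent.H74.FL

open H98.FPP

/-- parity: `true` for even vertices -/
def par (v : ℤ × ℤ) : Bool := decide ((v.1 + v.2) % 2 = 0)

theorem par_iff {v : ℤ × ℤ} : par v = true ↔ (v.1 + v.2) % 2 = 0 := by
  simp [par]

theorem par_iff' {v : ℤ × ℤ} : par v = false ↔ (v.1 + v.2) % 2 = 1 := by
  simp only [par, decide_eq_false_iff_not]
  omega

theorem par_add (v : ℤ × ℤ) (d : Fin 4) : par (v + vec d) = !par v := by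
  have h : ((v + vec d).1 + (v + vec d).2) % 2 = 1 - (v.1 + v.2) % 2 := by
    fin_cases d <;> simp only [vec, Prod.fst_add, Prod.snd_add] <;> simp <;> omega
  rcases hb : par v with _ | _
  · rw [par_iff'] at hb
    rw [Bool.not_false, par_iff, h, hb]
    rfl
  · rw [par_iff] at hb
    rw [Bool.not_true, par_iff', h, hb]
    rfl

/-- the direction which stays in the same black square -/
def tow : Bool → Fin 4 → Fin 4
  | true, d => 1 - d
  | false, d => 3 - d

/-- the lower left corner of the black square of a step is `v - off b d` -/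
def off : Bool → Fin 4 → ℤ × ℤ
  | true => ![(0, 0), (0, 0), (1, 1), (1, 1)]
  | false => ![(0, 1), (1, 0), (1, 0), (0, 1)]

/-- the index of the edge of a step in its black square -/
def idx : Bool → Fin 4 → Fin 4
  | true, d => -d
  | false, d => 2 - d

/-- corners of a square -/
def crn : Fin 4 → ℤ × ℤ := ![(0, 0), (1, 0), (1, 1), (0, 1)]

/-- edges of the square with lower left corner `c`: bottom, right, top, left -/
def bl (c : ℤ × ℤ) (k : Fin 4) : Sym2 (ℤ × ℤ) := s(c + crn k, c + crn k + vec k)

theorem bl_mem (c : ℤ × ℤ) (k : Fin 4) : bl c k ∈ lattice.edgeSet := edge_mem _ _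

theorem bl_inj {c c' : ℤ × ℤ} {k k' : Fin 4} (hc : par c = true) (hc' : par c' = true) (h : bl c k = bl c' k') :
    c = c' ∧ k = k' := by
  rw [par_iff] at hc hc'
  obtain ⟨a, b⟩ := c
  obtain ⟨a', b'⟩ := c'
  simp only [bl, Sym2.eq_iff, Prod.ext_iff] at h hc hc' ⊢
  fin_cases k <;> fin_cases k' <;> simp [crn, vec] at h ⊢ <;> omega

theorem par_blk (v : ℤ × ℤ) (d : Fin 4) : par (v - off (par v) d) = true := by
  rcases hb : par v with _ | _
  · rw [par_iff'] at hb
    rw [par_iff]
    fin_cases d <;> simp [off] <;> omega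
  · rw [par_iff] at hb
    rw [par_iff]
    fin_cases d <;> simp [off] <;> omega

theorem bl_zero (v : ℤ × ℤ) (b : Bool) (d : Fin 4) : bl (v - off b d) (idx b d) = s(v, v + vec d) := by
  obtain ⟨x, y⟩ := v
  rw [bl, Sym2.eq_iff]
  rcases b with _ | _ <;> fin_cases d <;> simp [off, idx, crn, vec, Prod.ext_iff] <;> omega

theorem bl_one (v : ℤ × ℤ) (b : Bool) (d : Fin 4) : bl (v - off b d) (d + 1) = s(v + vec d, v + vec d + vec (tow b d)) := by
  obtain ⟨x, y⟩ := v
  rw [bl, Sym2.eq_iff]
  rcases b with _ | _ <;> fin_cases d <;> simp [off, tow, crn, vec, Prod.ext_iff] <;> omega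

theorem bl_two (v : ℤ × ℤ) (b : Bool) (d : Fin 4) : bl (v - off b d) (idx b d + 2) =
    s(v + vec d + vec (tow b d), v + vec d + vec (tow b d) + vec (d + 2)) := by
  obtain ⟨x, y⟩ := v
  rw [bl, Sym2.eq_iff]
  have h1 : (-1 + 2 : Fin 4) = 1 := by decide
  have h3 : (-3 + 2 : Fin 4) = 3 := by decide
  rcases b with _ | _ <;> fin_cases d <;> simp [off, idx, tow, crn, vec, Prod.ext_iff, h1, h3] <;> omega

theorem bl_three (v : ℤ × ℤ) (b : Bool) (d : Fin 4) : bl (v - off b d) (d + 3) = s(v, v + vec (tow b d)) := by
  obtain ⟨x, y⟩ := v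
  rw [bl, Sym2.eq_iff]
  rcases b with _ | _ <;> fin_cases d <;> simp [off, tow, crn, vec, Prod.ext_iff] <;> omega

/-- the edges of the square `c` which belong to the path -/
def S (v : ℤ × ℤ) (l : List (Fin 4)) (c : ℤ × ℤ) : Finset (Fin 4) :=
  Finset.univ.filter fun k => bl c k ∈ ed v l

theorem mem_S {v : ℤ × ℤ} {l : List (Fin 4)} {c : ℤ × ℤ} {k : Fin 4} : k ∈ S v l c ↔ bl c k ∈ ed v l := by
  simp [S]

theorem S_cons {v : ℤ × ℤ} {d : Fin 4} {l : List (Fin 4)} {c : ℤ × ℤ} (hc : par c = true) :
    S v (d :: l) c = if c = v - off (par v) d then insert (idx (par v) d) (S (v + vec d) l c) else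
      S (v + vec d) l c := by
  ext k
  rw [mem_S, ed, List.mem_cons, ← bl_zero v (par v) d]
  split_ifs with h
  · rw [Finset.mem_insert, mem_S]
    constructor
    · rintro (h1 | h1)
      · exact Or.inl (bl_inj hc (par_blk v d) h1).2
      · exact Or.inr h1
    · rintro (h1 | h1)
      · left
        rw [h1, h]
      · exact Or.inr h1
  · rw [mem_S]
    constructor
    · rintro (h1 | h1)
      · exact absurd (bl_inj hc (par_blk v d) h1).1 h
      · exact h1
    · exact Or.inr

theorem idx_ne (b : Bool) (d : Fin 4) : d + 1 ≠ idx b d ∧ d + 1 ≠ idx b d + 2 := by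
  revert b d
  decide

theorem idx_cases (b : Bool) (d k : Fin 4) : k = idx b d ∨ k = d + 1 ∨ k = idx b d + 2 ∨ k = d + 3 := by
  revert b d k
  decide

theorem vert_head (v : ℤ × ℤ) (l : List (Fin 4)) : v ∈ verts v l := by
  cases l <;> simp [verts]

section core

variable {v : ℤ × ℤ} {d : Fin 4} {l : List (Fin 4)} (hn : (verts v (d :: l)).Nodup)

include hn

theorem nodup_tail : (verts (v + vec d) l).Nodup := by
  rw [verts, List.nodup_cons] at hn
  exact hn.2

theorem notMem_S {c : ℤ × ℤ} {k : Fin 4} (h : v ∈ bl c k) : k ∉ S (v + vec d) l c := by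
  intro h1
  rw [verts, List.nodup_cons] at hn
  exact hn.1 (mem_verts_of_ed (mem_S.1 h1) h)

theorem no_back : l.head? ≠ some (d + 2) := by
  intro h
  cases l with
  | nil => simp at h
  | cons d' l =>
    have h' : d' = d + 2 := by simpa using h
    subst h'
    rw [verts, List.nodup_cons] at hn
    apply hn.1
    rw [verts]
    refine List.mem_cons_of_mem _ ?_
    rw [add_assoc, vec_opp, add_zero]
    exact vert_head _ _

theorem idx_notMem (b : Bool) : idx b d ∉ S (v + vec d) l (v - off b d) := by
  refine notMem_S hn ?_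
  rw [bl_zero]
  exact Sym2.mem_mk_left _ _

theorem three_notMem (b : Bool) : d + 3 ∉ S (v + vec d) l (v - off b d) := by
  refine notMem_S hn ?_
  rw [bl_three]
  exact Sym2.mem_mk_left _ _

theorem one_mem_iff (b : Bool) : d + 1 ∈ S (v + vec d) l (v - off b d) ↔ l.head? = some (tow b d) := by
  rw [mem_S, bl_one]
  constructor
  · intro h
    obtain ⟨d', l', rfl, h2⟩ := ed_first (nodup_tail hn) h (Sym2.mem_mk_left _ _)
    rw [List.head?_cons, Option.some_inj]
    rw [Sym2.eq_iff] at h2
    have key : ∀ a b : Fin 4, vec a = vec b → a = b := by decide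
    have key0 : ∀ a : Fin 4, vec a ≠ 0 := by decide
    rcases h2 with ⟨-, h2⟩ | ⟨h2, -⟩
    · exact key _ _ (add_left_cancel h2).symm
    · exact absurd (by simpa using h2) (key0 d')
  · intro h
    cases l with
    | nil => simp at h
    | cons d' l =>
      have h' : d' = tow b d := by simpa using h
      subst h'
      exact List.mem_cons_self

theorem core_A (b : Bool) (h : l.head? ≠ some (tow b d)) :
    S (v + vec d) l (v - off b d) ⊆ {idx b d + 2} := by
  intro k hk
  rw [Finset.mem_singleton]
  rcases idx_cases b d k with rfl | rfl | rfl | rfl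
  · exact absurd hk (idx_notMem hn b)
  · exact absurd ((one_mem_iff hn b).1 hk) h
  · rfl
  · exact absurd hk (three_notMem hn b)

end core

theorem tow_two (b : Bool) (d : Fin 4) : tow (!b) (tow b d) = d + 2 := by
  revert b d
  decide

theorem tow_three (b : Bool) (d : Fin 4) : tow b (d + 2) = tow b d + 2 := by
  revert b d
  decide

theorem idx_tow (b : Bool) (d : Fin 4) : idx (!b) (tow b d) = d + 1 := by
  revert b d
  decide

theorem tow_one (b : Bool) (d : Fin 4) : tow b d + 1 = idx b d + 2 := by
  revert b d
  decide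

theorem blk_tow (v : ℤ × ℤ) (b : Bool) (d : Fin 4) : v + vec d - off (!b) (tow b d) = v - off b d := by
  obtain ⟨x, y⟩ := v
  rcases b with _ | _ <;> fin_cases d <;> simp [off, tow, vec, Prod.ext_iff] <;> omega

theorem core_B {v : ℤ × ℤ} {d : Fin 4} {l : List (Fin 4)} (b : Bool) (hn : (verts v (d :: tow b d :: l)).Nodup)
    (h : l.head? ≠ some (d + 2)) : S (v + vec d) (tow b d :: l) (v - off b d) = {d + 1} := by
  ext k
  rw [Finset.mem_singleton]
  rcases idx_cases b d k with rfl | rfl | rfl | rfl
  · constructor
    · intro hk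
      exact absurd hk (idx_notMem hn b)
    · intro hk
      exact absurd hk.symm (idx_ne b d).1
  · simp only [iff_true]
    rw [one_mem_iff hn b]
    rfl
  · constructor
    · intro hk
      exfalso
      have h1 := nodup_tail hn
      have h2 := one_mem_iff h1 (!b)
      rw [blk_tow, tow_one, tow_two] at h2
      refine h (h2.1 ?_)
      rw [mem_S, ed, List.mem_cons] at hk
      rcases hk with hk | hk
      · exfalso
        rw [bl_two, Sym2.eq_iff] at hk
        have key0 : ∀ a : Fin 4, vec a ≠ 0 := by decide
        have key1 : ∀ (b : Bool) (a : Fin 4), vec (tow b a) + vec (a + 2) ≠ 0 := by decide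
        rcases hk with ⟨hk, -⟩ | ⟨-, hk⟩
        · exact key0 _ (by simpa using hk)
        · rw [add_assoc] at hk
          exact key1 b d (by simpa using hk)
      · rw [mem_S]
        exact hk
    · intro hk
      exact absurd hk.symm (idx_ne b d).2
  · constructor
    · intro hk
      exact absurd hk (three_notMem hn b)
    · intro hk
      exfalso
      revert hk
      clear hn h
      revert d
      decide

theorem core_C {v : ℤ × ℤ} {d : Fin 4} {l : List (Fin 4)} (b : Bool)
    (hn : (verts v (d :: tow b d :: (d + 2) :: l)).Nodup) :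
    S (v + vec d) (tow b d :: (d + 2) :: l) (v - off b d) = {d + 1, idx b d + 2} ∧ l.head? ≠ some (tow b d + 2) := by
  constructor
  · ext k
    rw [Finset.mem_insert, Finset.mem_singleton]
    rcases idx_cases b d k with rfl | rfl | rfl | rfl
    · constructor
      · intro hk
        exact absurd hk (idx_notMem hn b)
      · intro hk
        exfalso
        revert hk
        clear hn
        revert b d
        decide
    · simp only [true_or, iff_true]
      rw [one_mem_iff hn b]
      rfl
    · simp only [or_true, iff_true]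
      rw [mem_S, bl_two]
      simp [ed]
    · constructor
      · intro hk
        exact absurd hk (three_notMem hn b)
      · intro hk
        exfalso
        revert hk
        clear hn
        revert b d
        decide
  · intro h
    cases l with
    | nil => simp at h
    | cons d' l =>
      have h' : d' = tow b d + 2 := by simpa using h
      subst h'
      rw [verts, List.nodup_cons] at hn
      apply hn.1
      simp only [verts]
      refine List.mem_cons_of_mem _ (List.mem_cons_of_mem _ (List.mem_cons_of_mem _ ?_))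
      have e : v + vec d + vec (tow b d) + vec (d + 2) + vec (tow b d + 2) = v := by
        have h1 := vec_opp d
        have h2 := vec_opp (tow b d)
        calc v + vec d + vec (tow b d) + vec (d + 2) + vec (tow b d + 2) =
            v + (vec d + vec (d + 2)) + (vec (tow b d) + vec (tow b d + 2)) := by abel
          _ = v := by rw [h1, h2, add_zero, add_zero]
      rw [e]
      exact vert_head _ _

end Pool.Agent.H74.FL
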