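import Pool.Agent.H74.FL.Wt

/-!
# MP_ae266a_pr (lower bound): the weighted number of paths
-/

set_option autoImplicit false

namespace Pool.Agent.H74.FL

/-- lists of length `m` -/
def lists : ℕ → Finset (List (Fin 4))
  | 0 => {[]}
  | m + 1 => (lists m ×ˢ (Finset.univ : Finset (Fin 4))).image fun p => p.2 :: p.1

theorem mem_lists (l : List (Fin 4)) : l ∈ lists l.length := by
  induction l with
  | nil => simp [lists]
  | cons d l ih =>
    rw [List.length_cons, lists, Finset.mem_image]
    exact ⟨(l, d), by simp [ih], rfl⟩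

theorem length_lists {m : ℕ} {l : List (Fin 4)} (h : l ∈ lists m) : l.length = m := by
  induction m generalizing l with
  | zero => simpa [lists] using h
  | succ m ih =>
    rw [lists, Finset.mem_image] at h
    obtain ⟨⟨l', d⟩, h1, rfl⟩ := h
    rw [List.length_cons, ih (Finset.mem_product.1 h1).1]

theorem sum_lists {M : Type*} [AddCommMonoid M] (m : ℕ) (f : List (Fin 4) → M) :
    ∑ l ∈ lists (m + 1), f l = ∑ l ∈ lists m, ∑ d : Fin 4, f (d :: l) := by
  rw [lists, Finset.sum_image, Finset.sum_product]
  rintro ⟨l, d⟩ - ⟨l', d'⟩ - h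
  simpa [and_comm] using h

/-- the value of `e ^ θ` -/
def y : ℚ := 34975 / 10000

/-- weight of the horizontal displacement of one step -/
def yd : Fin 4 → ℚ := ![y, 1, 1 / y, 1]

/-- weight of the horizontal displacement -/
def yl : List (Fin 4) → ℚ
  | [] => 1
  | d :: l => yd d * yl l

/-- type of a step -/
def ty : Bool → Fin 4 → Fin 4
  | true, d => -d
  | false, d => d

/-- table of the potential -/
def Jt : Fin 4 → ℕ → ℚ := fun t r =>
  if r = 1 then ![1, 77025 / 100000, 27486 / 100000, 85836 / 100000] t else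
  if r = 2 then ![93697 / 100000, 49775 / 100000, 2057 / 10000, 85347 / 100000] t else
    ![84788 / 100000, 18614 / 100000, 18614 / 100000, 84788 / 100000] t

/-- the potential -/
def J (b : Bool) : List (Fin 4) → ℚ
  | [] => 1
  | d :: l => Jt (ty b d) (run b (d :: l))

theorem Jt_ge (t : Fin 4) (r : ℕ) : (18 / 100) ≤ Jt t r := by
  have h : ∀ t, (18 / 100) ≤ Jt t 1 ∧ (18 / 100) ≤ Jt t 2 ∧ (18 / 100) ≤ Jt t 3 := by
    decide +kernel
  by_cases h1 : r = 1
  · rw [h1]
    exact (h t).1
  · by_cases h2 : r = 2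
    · rw [h2]
      exact (h t).2.1
    · have h3 : Jt t r = Jt t 3 := by
        unfold Jt
        rw [if_neg h1, if_neg h2, if_neg (by omega), if_neg (by omega)]
      rw [h3]
      exact (h t).2.2

theorem J_ge (b : Bool) (l : List (Fin 4)) : (18 / 100) ≤ J b l := by
  cases l with
  | nil => norm_num [J]
  | cons d l => exact Jt_ge _ _

theorem rat_nonneg (r : ℕ) : 0 ≤ rat r := by
  unfold rat
  split <;> norm_num [k1, k2, k3]

theorem wt_nonneg (b : Bool) (l : List (Fin 4)) : 0 ≤ wt b l := by
  induction l generalizing b with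
  | nil => norm_num [wt]
  | cons d l ih =>
    rw [wt]
    split_ifs
    · exact le_rfl
    · exact mul_nonneg (rat_nonneg _) (ih _)

theorem yd_pos (d : Fin 4) : 0 < yd d := by
  fin_cases d <;> norm_num [yd, y]

theorem yl_pos (l : List (Fin 4)) : 0 < yl l := by
  induction l with
  | nil => norm_num [yl]
  | cons d l ih => exact mul_pos (yd_pos d) ih

/-- the contribution of one more step in front -/
def ctr (b : Bool) (d' : Fin 4) (r : ℕ) (d : Fin 4) : ℚ :=
  if d' = d + 2 then 0 else if d' = tow b d then rat (r + 1) * yd d * Jt (ty b d) (r + 1) else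
    k1 * yd d * Jt (ty b d) 1

theorem ctr_le (b : Bool) (d' : Fin 4) (r : ℕ) (hr : 1 ≤ r) :
    ∑ d : Fin 4, ctr b d' r d ≤ 99995 / 100000 * Jt (ty (!b) d') r := by
  have h3 : ∀ (b : Bool) (d' : Fin 4), ∀ r ∈ ({1, 2, 3} : Finset ℕ),
      ∑ d : Fin 4, ctr b d' r d ≤ 99995 / 100000 * Jt (ty (!b) d') r := by
    decide +kernel
  by_cases h : r ≤ 3
  · exact h3 b d' r (by simp; omega)
  · have h1 : ∀ n, 3 ≤ n → rat (n + 1) = 0 := by
      intro n hn
      obtain ⟨n, rfl⟩ := Nat.exists_eq_add_of_le hn
      rw [show 3 + n + 1 = n + 4 by ring]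
      rfl
    have h2 : ∀ t, Jt t r = Jt t 3 := by
      intro t
      unfold Jt
      rw [if_neg (by omega), if_neg (by omega), if_neg (by omega), if_neg (by omega)]
    have h4 : ∀ d, ctr b d' r d = ctr b d' 3 d := by
      intro d
      unfold ctr
      rw [h1 r (by omega), h1 3 le_rfl]
      simp
    rw [h2]
    simp only [h4]
    exact h3 b d' 3 (by simp)

/-- the quantity which decreases -/
def V (b : Bool) (l : List (Fin 4)) : ℚ := wt b l * yl l * J b l

theorem run_pos (b : Bool) (d : Fin 4) (l : List (Fin 4)) : 1 ≤ run b (d :: l) := by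
  rw [run]
  split_ifs <;> omega

theorem V_step (b : Bool) (d' : Fin 4) (l : List (Fin 4)) :
    ∑ d : Fin 4, V b (d :: d' :: l) ≤ (99995 / 100000) * V (!b) (d' :: l) := by
  have h1 : ∀ d, V b (d :: d' :: l) = wt (!b) (d' :: l) * yl (d' :: l) * ctr b d' (run (!b) (d' :: l)) d := by
    intro d
    rw [V, wt, ctr]
    simp only [List.head?_cons, Option.some_inj]
    split_ifs with h1 h2
    · ring
    · have h3 : run b (d :: d' :: l) = run (!b) (d' :: l) + 1 := by
        rw [run]
        simp [h2]
      rw [J, h3, yl]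
      ring
    · have h3 : run b (d :: d' :: l) = 1 := by
        rw [run]
        simp [h2]
      rw [J, h3, yl]
      show k1 * _ * _ * _ = _
      ring
  simp only [h1]
  rw [← Finset.mul_sum]
  calc _ ≤ wt (!b) (d' :: l) * yl (d' :: l) * ((99995 / 100000) * Jt (ty (!b) d') (run (!b) (d' :: l))) :=
        mul_le_mul_of_nonneg_left (ctr_le b d' _ (run_pos _ _ _)) (mul_nonneg (wt_nonneg _ _) (yl_pos _).le)
    _ = _ := by
        rw [V, J]
        ring

theorem sum_V (m : ℕ) (b : Bool) : ∑ l ∈ lists (m + 1), V b l ≤ 2 * (99995 / 100000) ^ m := by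
  induction m generalizing b with
  | zero =>
    revert b
    decide +kernel
  | succ m ih =>
    rw [sum_lists]
    calc ∑ l ∈ lists (m + 1), ∑ d : Fin 4, V b (d :: l) ≤ ∑ l ∈ lists (m + 1), (99995 / 100000) * V (!b) l := by
          refine Finset.sum_le_sum fun l hl => ?_
          cases l with
          | nil =>
            have := length_lists hl
            simp at this
          | cons d' l => exact V_step b d' l
      _ ≤ (99995 / 100000) * (2 * (99995 / 100000) ^ m) := by
          rw [← Finset.mul_sum]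
          exact mul_le_mul_of_nonneg_left (ih _) (by norm_num)
      _ = _ := by ring

theorem sum_wt (m : ℕ) (b : Bool) : ∑ l ∈ lists m, wt b l * yl l ≤ 20 * (99995 / 100000) ^ m := by
  cases m with
  | zero =>
    have : lists 0 = {[]} := rfl
    rw [this, Finset.sum_singleton]
    norm_num [wt, yl]
  | succ m =>
    have h1 : (18 / 100) * ∑ l ∈ lists (m + 1), wt b l * yl l ≤ ∑ l ∈ lists (m + 1), V b l := by
      rw [Finset.mul_sum]
      refine Finset.sum_le_sum fun l _ => ?_
      rw [V, mul_comm]
      exact mul_le_mul_of_nonneg_left (J_ge b l) (mul_nonneg (wt_nonneg _ _) (yl_pos _).le)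
    have h2 := sum_V m b
    have h3 : (0 : ℚ) < (99995 / 100000) ^ m := by positivity
    rw [pow_succ]
    linarith

/-- horizontal displacement -/
theorem yl_eq (v : ℤ × ℤ) (l : List (Fin 4)) : yl l = y ^ ((ends v l).1 - v.1) := by
  have hy : y ≠ 0 := by norm_num [y]
  induction l generalizing v with
  | nil => simp [yl, ends]
  | cons d l ih =>
    rw [yl, ends, ih (v + vec d)]
    have h1 : yd d = y ^ (vec d).1 := by
      fin_cases d <;> simp [yd, vec]
    rw [h1, ← zpow_add₀ hy]
    congr 1
    rw [Prod.fst_add]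
    ring

end Pool.Agent.H74.FL
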