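import Pool.Agent.H74.FL.Wt
import Pool.Agent.H98.FPP.Limit

/-!
# MP_ae266a_pr (lower bound): expectation of the weight of one square
-/

set_option autoImplicit false

namespace Pool.Agent.H74.FL

open H98.FPP MeasureTheory ProbabilityTheory Set

/-- uniform law -/
noncomputable abbrev U : Measure ℝ := volume.restrict (Icc (0 : ℝ) 1)

noncomputable def m0 : ℝ := (1 - Real.exp (-5)) / 5
noncomputable def m1 : ℝ := (1 - 6 * Real.exp (-5)) / 25
noncomputable def m2 : ℝ := (2 - 37 * Real.exp (-5)) / 125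

/-- integral of a quadratic polynomial times `exp (-5 x)` -/
theorem int_quad (A B C : ℝ) : ∫ x in (0 : ℝ)..1, Real.exp (-5 * x) * (A + B * x + C * x ^ 2) =
    A * m0 + B * m1 + C * m2 := by
  have hd : ∀ x : ℝ, HasDerivAt (fun x => Real.exp (-5 * x) * (-(A / 5 + B / 25 + 2 * C / 125) -
      (B / 5 + 2 * C / 25) * x - C / 5 * x ^ 2)) (Real.exp (-5 * x) * (A + B * x + C * x ^ 2)) x := by
    intro x
    have h1 : HasDerivAt (fun x : ℝ => Real.exp (-5 * x)) (Real.exp (-5 * x) * -5) x := by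
      have := ((hasDerivAt_id x).const_mul (-5 : ℝ)).exp
      simpa using this
    have h2 : HasDerivAt (fun x : ℝ => -(A / 5 + B / 25 + 2 * C / 125) - (B / 5 + 2 * C / 25) * x - C / 5 * x ^ 2)
        (0 - (B / 5 + 2 * C / 25) * 1 - C / 5 * (2 * x)) x := by
      refine HasDerivAt.sub (HasDerivAt.sub (hasDerivAt_const _ _) ((hasDerivAt_id x).const_mul _)) ?_
      have := (hasDerivAt_pow 2 x).const_mul (C / 5)
      simpa using this
    exact (h1.fun_mul h2).congr_deriv (by ring)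
  rw [intervalIntegral.integral_eq_sub_of_hasDerivAt (fun x _ => hd x)]
  · simp only [m0, m1, m2, mul_one, mul_zero, Real.exp_zero]
    ring
  · apply Continuous.intervalIntegrable
    fun_prop

theorem lint_quad {A B C : ℝ} (h : ∀ x ∈ Icc (0 : ℝ) 1, 0 ≤ A + B * x + C * x ^ 2) :
    ∫⁻ x, ENNReal.ofReal (Real.exp (-5 * x) * (A + B * x + C * x ^ 2)) ∂U = ENNReal.ofReal (A * m0 + B * m1 + C * m2) := by
  rw [← int_quad, intervalIntegral.integral_of_le zero_le_one, ← integral_Icc_eq_integral_Ioc,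
    ofReal_integral_eq_lintegral_ofReal]
  · exact (Continuous.integrableOn_Icc (by fun_prop))
  · rw [Filter.EventuallyLE, ae_restrict_iff' measurableSet_Icc]
    exact Filter.Eventually.of_forall fun x hx => mul_nonneg (Real.exp_pos _).le (h x hx)

theorem quad_nonneg {A B C : ℝ} (h : ∀ x ∈ Icc (0 : ℝ) 1, 0 ≤ A + B * x + C * x ^ 2) :
    0 ≤ A * m0 + B * m1 + C * m2 := by
  rw [← int_quad]
  exact intervalIntegral.integral_nonneg zero_le_one fun x hx => mul_nonneg (Real.exp_pos _).le (h x hx)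

theorem tail1 (u : ℝ) : U {b | u ≤ b} ≤ ENNReal.ofReal (1 - max 0 u) := by
  rw [Measure.restrict_apply (s := Icc (0 : ℝ) 1) (t := {b | u ≤ b}) measurableSet_Ici, ← Real.volume_Icc]
  refine measure_mono ?_
  rintro x ⟨h1, h2⟩
  exact ⟨max_le h2.1 h1, h2.2⟩

theorem int_tail {t : ℝ} (ht0 : 0 ≤ t) (ht2 : t ≤ 2) : ∫ a in (0 : ℝ)..1, max 0 (1 - max 0 (t - a)) =
    1 - t ^ 2 / 2 + (max 0 (t - 1)) ^ 2 := by
  have hc : Continuous fun a : ℝ => max 0 (1 - max 0 (t - a)) := by fun_prop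
  have hlin : ∀ a b : ℝ, ∫ x in a..b, (1 - t + x) = (1 - t) * (b - a) + (b ^ 2 - a ^ 2) / 2 := by
    intro a b
    rw [intervalIntegral.integral_add (by simp) (by simp), intervalIntegral.integral_const, integral_id, smul_eq_mul]
    ring
  rcases le_total t 1 with h | h
  · rw [← intervalIntegral.integral_add_adjacent_intervals (b := t) (hc.intervalIntegrable _ _)
      (hc.intervalIntegrable _ _)]
    have e1 : ∫ a in (0 : ℝ)..t, max 0 (1 - max 0 (t - a)) = ∫ a in (0 : ℝ)..t, (1 - t + a) := by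
      refine intervalIntegral.integral_congr fun a ha => ?_
      rw [uIcc_of_le ht0] at ha
      rw [max_eq_right (by linarith [ha.2] : (0 : ℝ) ≤ t - a), max_eq_right (by linarith [ha.1])]
      ring
    have e2 : ∫ a in t..1, max 0 (1 - max 0 (t - a)) = ∫ a in t..1, (1 : ℝ) := by
      refine intervalIntegral.integral_congr fun a ha => ?_
      rw [uIcc_of_le h] at ha
      rw [max_eq_left (by linarith [ha.1] : t - a ≤ 0)]
      norm_num
    rw [e1, e2, hlin, max_eq_left (by linarith : t - 1 ≤ 0)]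
    simp
    ring
  · rw [← intervalIntegral.integral_add_adjacent_intervals (b := t - 1) (hc.intervalIntegrable _ _)
      (hc.intervalIntegrable _ _)]
    have e1 : ∫ a in (0 : ℝ)..(t - 1), max 0 (1 - max 0 (t - a)) = ∫ a in (0 : ℝ)..(t - 1), (0 : ℝ) := by
      refine intervalIntegral.integral_congr fun a ha => ?_
      rw [uIcc_of_le (by linarith)] at ha
      rw [max_eq_right (by linarith [ha.2] : (0 : ℝ) ≤ t - a), max_eq_left (by linarith [ha.2])]
    have e2 : ∫ a in (t - 1)..1, max 0 (1 - max 0 (t - a)) = ∫ a in (t - 1)..1, (1 - t + a) := by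
      refine intervalIntegral.integral_congr fun a ha => ?_
      rw [uIcc_of_le (by linarith)] at ha
      rw [max_eq_right (by linarith [ha.2] : (0 : ℝ) ≤ t - a), max_eq_right (by linarith [ha.1])]
      ring
    rw [e1, e2, hlin, max_eq_right (by linarith : (0 : ℝ) ≤ t - 1)]
    simp
    ring

theorem tail2 {t : ℝ} (ht0 : 0 ≤ t) (ht2 : t ≤ 2) :
    ∫⁻ c, U {d | t - c ≤ d} ∂U ≤ ENNReal.ofReal (1 - t ^ 2 / 2 + (max 0 (t - 1)) ^ 2) := by
  rw [← int_tail ht0 ht2, intervalIntegral.integral_of_le zero_le_one, ← integral_Icc_eq_integral_Ioc,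
    ofReal_integral_eq_lintegral_ofReal]
  · refine lintegral_mono fun c => (tail1 _).trans ?_
    exact ENNReal.ofReal_le_ofReal (le_max_right _ _)
  · exact (Continuous.integrableOn_Icc (by fun_prop))
  · exact Filter.Eventually.of_forall fun x => le_max_left _ _

theorem ae_U : ∀ᵐ x ∂U, x ∈ Icc (0 : ℝ) 1 := ae_restrict_mem measurableSet_Icc

theorem exp5 : Real.exp (-5) ∈ Icc (0.0067378 : ℝ) 0.0067381 := by
  have h : Real.exp (-5) = (Real.exp 1)⁻¹ ^ 5 := by
    rw [← Real.exp_neg, ← Real.exp_nat_mul]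
    norm_num
  rw [h]
  have h1 := Real.exp_one_gt_d9
  have h2 := Real.exp_one_lt_d9
  have h3 : (Real.exp 1)⁻¹ < (2.7182818283)⁻¹ := by
    rw [inv_lt_inv₀ (by positivity) (by norm_num)]
    exact h1
  have h4 : (2.7182818286)⁻¹ < (Real.exp 1)⁻¹ := by
    rw [inv_lt_inv₀ (by norm_num) (by positivity)]
    exact h2
  constructor
  · calc (0.0067378 : ℝ) ≤ (2.7182818286)⁻¹ ^ 5 := by norm_num
      _ ≤ _ := pow_le_pow_left₀ (by norm_num) h4.le _
  · calc (Real.exp 1)⁻¹ ^ 5 ≤ (2.7182818283)⁻¹ ^ 5 := pow_le_pow_left₀ (by positivity) h3.le _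
      _ ≤ _ := by norm_num

/-- the pair integral -/
theorem pair_int : ∫⁻ a, ∫⁻ b, ∫⁻ c, ∫⁻ d, ENNReal.ofReal (if a + b ≤ c + d then Real.exp (-5 * (a + b)) else 0)
    ∂U ∂U ∂U ∂U ≤ ENNReal.ofReal (m0 ^ 2 - m0 * m2 - m1 ^ 2 + m2 ^ 2) := by
  have hb : ∀ a ∈ Icc (0 : ℝ) 1, ∀ b ∈ Icc (0 : ℝ) 1, 0 ≤ (1 - a ^ 2 / 2) + (-a) * b + (a ^ 2 - 1 / 2) * b ^ 2 ∧
      1 - (a + b) ^ 2 / 2 + (max 0 (a + b - 1)) ^ 2 ≤ (1 - a ^ 2 / 2) + (-a) * b + (a ^ 2 - 1 / 2) * b ^ 2 := by
    intro a ha b hb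
    have h1 : a + b - 1 ≤ a * b := by nlinarith [ha.2, hb.2]
    have h0 : 0 ≤ a * b := mul_nonneg ha.1 hb.1
    have h2 : (max 0 (a + b - 1)) ^ 2 ≤ (a * b) ^ 2 :=
      pow_le_pow_left₀ (le_max_left _ _) (max_le h0 h1) 2
    constructor
    · rcases le_total (a + b) 1 with h | h
      · nlinarith [ha.1, hb.1, sq_nonneg (a * b)]
      · rw [max_eq_right (by linarith)] at h2
        nlinarith [sq_nonneg (2 - (a + b))]
    · nlinarith
  have h1 : ∀ a ∈ Icc (0 : ℝ) 1, ∀ b ∈ Icc (0 : ℝ) 1,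
      ∫⁻ c, ∫⁻ d, ENNReal.ofReal (if a + b ≤ c + d then Real.exp (-5 * (a + b)) else 0) ∂U ∂U ≤
      ENNReal.ofReal (Real.exp (-5 * a)) * ENNReal.ofReal (Real.exp (-5 * b) *
        ((1 - a ^ 2 / 2) + (-a) * b + (a ^ 2 - 1 / 2) * b ^ 2)) := by
    intro a ha b hb'
    have e1 : ∀ c, ∫⁻ d, ENNReal.ofReal (if a + b ≤ c + d then Real.exp (-5 * (a + b)) else 0) ∂U =
        ENNReal.ofReal (Real.exp (-5 * (a + b))) * U {d | a + b - c ≤ d} := by
      intro c
      rw [← lintegral_indicator_const (s := {d | a + b - c ≤ d}) measurableSet_Ici]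
      congr 1
      funext d
      rw [indicator_apply]
      have : d ∈ {d | a + b - c ≤ d} ↔ a + b ≤ c + d := by
        rw [mem_ofPred_eq]
        constructor <;> intro <;> linarith
      split_ifs with h2 h3 h3
      · rfl
      · exact absurd (this.2 h2) h3
      · exact absurd (this.1 h3) h2
      · exact ENNReal.ofReal_zero
    simp only [e1]
    rw [lintegral_const_mul' _ _ ENNReal.ofReal_ne_top]
    obtain ⟨h3, h4⟩ := hb a ha b hb'
    calc _ ≤ ENNReal.ofReal (Real.exp (-5 * (a + b))) * ENNReal.ofReal ((1 - a ^ 2 / 2) + (-a) * b +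
          (a ^ 2 - 1 / 2) * b ^ 2) := by
          gcongr
          exact (tail2 (by linarith [ha.1, hb'.1]) (by linarith [ha.2, hb'.2])).trans (ENNReal.ofReal_le_ofReal h4)
      _ = _ := by
          rw [mul_add, Real.exp_add, ENNReal.ofReal_mul (Real.exp_pos _).le, mul_assoc,
            ← ENNReal.ofReal_mul (Real.exp_pos _).le]
  have h2 : ∀ a ∈ Icc (0 : ℝ) 1, ∫⁻ b, ∫⁻ c, ∫⁻ d, ENNReal.ofReal (if a + b ≤ c + d then Real.exp (-5 * (a + b))
      else 0) ∂U ∂U ∂U ≤ ENNReal.ofReal (Real.exp (-5 * a) * ((m0 - m2 / 2) + (-m1) * a + (m2 - m0 / 2) * a ^ 2)) := by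
    intro a ha
    calc _ ≤ ∫⁻ b, ENNReal.ofReal (Real.exp (-5 * a)) * ENNReal.ofReal (Real.exp (-5 * b) *
        ((1 - a ^ 2 / 2) + (-a) * b + (a ^ 2 - 1 / 2) * b ^ 2)) ∂U := by
          refine lintegral_mono_ae ?_
          filter_upwards [ae_U] with b hb'
          exact h1 a ha b hb'
      _ = _ := by
          rw [lintegral_const_mul' _ _ ENNReal.ofReal_ne_top, lint_quad fun b hb' => (hb a ha b hb').1,
            ← ENNReal.ofReal_mul (Real.exp_pos _).le]
          congr 2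
          ring
  have h0 := exp5
  calc _ ≤ ∫⁻ a, ENNReal.ofReal (Real.exp (-5 * a) * ((m0 - m2 / 2) + (-m1) * a + (m2 - m0 / 2) * a ^ 2)) ∂U := by
        refine lintegral_mono_ae ?_
        filter_upwards [ae_U] with a ha
        exact h2 a ha
    _ = _ := by
        rw [lint_quad]
        · congr 1
          ring
        · intro x hx
          have e1 : 0.19 ≤ m0 := by unfold m0; linarith [h0.2]
          have e2 : m0 ≤ 0.2 := by unfold m0; linarith [h0.1]
          have e3 : m1 ≤ 0.04 := by unfold m1; linarith [h0.1]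
          have e4 : m2 ≤ 0.016 := by unfold m2; linarith [h0.1]
          have e5 : 0 ≤ m2 := by unfold m2; linarith [h0.2]
          nlinarith [hx.1, hx.2, mul_nonneg hx.1 hx.1, mul_le_mul hx.2 hx.2 hx.1 zero_le_one]

/-- the triple integral -/
theorem triple_int : ∫⁻ a, ∫⁻ b, ∫⁻ c, ∫⁻ d, ENNReal.ofReal (if a + b + c ≤ d then Real.exp (-5 * (a + b + c)) else 0)
    ∂U ∂U ∂U ∂U ≤ ENNReal.ofReal ((9 / 4 * m0 ^ 3 - 9 * m1 * m0 ^ 2 + 3 * m2 * m0 ^ 2 + 6 * m1 ^ 2 * m0) / 2) := by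
  have h0 := exp5
  have e1 : 0.198652 ≤ m0 := by unfold m0; linarith [h0.2]
  have e2 : m0 ≤ 0.1986525 := by unfold m0; linarith [h0.1]
  have e3 : m1 ≤ 0.0383831 := by unfold m1; linarith [h0.1]
  have e3' : 0.03838 ≤ m1 := by unfold m1; linarith [h0.2]
  have e4 : m2 ≤ 0.014006 := by unfold m2; linarith [h0.1]
  have e5 : 0.014005 ≤ m2 := by unfold m2; linarith [h0.2]
  -- first variable
  have h1 : ∀ s : ℝ, 0 ≤ s → ∀ c ∈ Icc (0 : ℝ) 1,
      ∫⁻ d, ENNReal.ofReal (if s + c ≤ d then Real.exp (-5 * (s + c)) else 0) ∂U ≤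
      ENNReal.ofReal (Real.exp (-5 * s)) * ENNReal.ofReal (Real.exp (-5 * c) *
        ((3 / 2 - s) ^ 2 / 2 + (-(3 / 2 - s)) * c + (1 / 2) * c ^ 2)) := by
    intro s hs c hc
    have f1 : ∫⁻ d, ENNReal.ofReal (if s + c ≤ d then Real.exp (-5 * (s + c)) else 0) ∂U =
        ENNReal.ofReal (Real.exp (-5 * (s + c))) * U {d | s + c ≤ d} := by
      rw [← lintegral_indicator_const (s := {d | s + c ≤ d}) measurableSet_Ici]
      congr 1
      funext d
      rw [indicator_apply]
      simp only [mem_ofPred_eq]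
      split_ifs with h2
      · rfl
      · exact ENNReal.ofReal_zero
    rw [f1]
    calc _ ≤ ENNReal.ofReal (Real.exp (-5 * (s + c))) * ENNReal.ofReal ((3 / 2 - s) ^ 2 / 2 + (-(3 / 2 - s)) * c +
          (1 / 2) * c ^ 2) := by
          gcongr
          refine (tail1 _).trans (ENNReal.ofReal_le_ofReal ?_)
          rw [max_eq_right (by linarith [hc.1])]
          nlinarith [sq_nonneg (s + c - 1 / 2)]
      _ = _ := by
          rw [mul_add, Real.exp_add, ENNReal.ofReal_mul (Real.exp_pos _).le, mul_assoc,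
            ← ENNReal.ofReal_mul (Real.exp_pos _).le]
  have h2 : ∀ s : ℝ, 0 ≤ s → ∫⁻ c, ∫⁻ d, ENNReal.ofReal (if s + c ≤ d then Real.exp (-5 * (s + c)) else 0) ∂U ∂U ≤
      ENNReal.ofReal (Real.exp (-5 * s)) * ENNReal.ofReal ((3 / 2 - s) ^ 2 / 2 * m0 + (-(3 / 2 - s)) * m1 +
        (1 / 2) * m2) := by
    intro s hs
    calc _ ≤ ∫⁻ c, ENNReal.ofReal (Real.exp (-5 * s)) * ENNReal.ofReal (Real.exp (-5 * c) *
        ((3 / 2 - s) ^ 2 / 2 + (-(3 / 2 - s)) * c + (1 / 2) * c ^ 2)) ∂U := by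
          refine lintegral_mono_ae ?_
          filter_upwards [ae_U] with c hc
          exact h1 s hs c hc
      _ = _ := by
          rw [lintegral_const_mul' _ _ ENNReal.ofReal_ne_top, lint_quad]
          intro c _
          nlinarith [sq_nonneg (3 / 2 - s - c)]
  -- second variable
  set α : ℝ := 9 / 8 * m0 - 3 / 2 * m1 + m2 / 2 with hα
  set β : ℝ := -(3 / 2) * m0 + m1 with hβ
  set γ : ℝ := m0 / 2 with hγ
  have hR : ∀ s : ℝ, (3 / 2 - s) ^ 2 / 2 * m0 + (-(3 / 2 - s)) * m1 + (1 / 2) * m2 = α + β * s + γ * s ^ 2 := by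
    intro s
    rw [hα, hβ, hγ]
    ring
  have hRpos : ∀ s : ℝ, 0 ≤ α + β * s + γ * s ^ 2 := by
    intro s
    rw [← hR]
    nlinarith [sq_nonneg ((3 / 2 - s) * m0 - m1)]
  have h3 : ∀ a ∈ Icc (0 : ℝ) 1, ∫⁻ b, ∫⁻ c, ∫⁻ d, ENNReal.ofReal (if a + b + c ≤ d then Real.exp (-5 * (a + b + c))
      else 0) ∂U ∂U ∂U ≤ ENNReal.ofReal (Real.exp (-5 * a) * ((α * m0 + β * m1 + γ * m2) + (β * m0 + 2 * γ * m1) * a +
        γ * m0 * a ^ 2)) := by
    intro a ha
    calc _ ≤ ∫⁻ b, ENNReal.ofReal (Real.exp (-5 * a)) * ENNReal.ofReal (Real.exp (-5 * b) *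
        ((α + β * a + γ * a ^ 2) + (β + 2 * γ * a) * b + γ * b ^ 2)) ∂U := by
          refine lintegral_mono_ae ?_
          filter_upwards [ae_U] with b hb
          refine (h2 (a + b) (by linarith [ha.1, hb.1])).trans (le_of_eq ?_)
          rw [hR, mul_add, Real.exp_add, ENNReal.ofReal_mul (Real.exp_pos _).le, mul_assoc,
            ← ENNReal.ofReal_mul (Real.exp_pos _).le]
          congr 3
          ring
      _ = _ := by
          rw [lintegral_const_mul' _ _ ENNReal.ofReal_ne_top, lint_quad, ← ENNReal.ofReal_mul (Real.exp_pos _).le]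
          · congr 2
            ring
          · intro b _
            have := hRpos (a + b)
            nlinarith
  calc _ ≤ ∫⁻ a, ENNReal.ofReal (Real.exp (-5 * a) * ((α * m0 + β * m1 + γ * m2) + (β * m0 + 2 * γ * m1) * a +
        γ * m0 * a ^ 2)) ∂U := by
        refine lintegral_mono_ae ?_
        filter_upwards [ae_U] with a ha
        exact h3 a ha
    _ = _ := by
        rw [lint_quad]
        · congr 1
          rw [hα, hβ, hγ]
          ring
        · intro x _
          have h6 := quad_nonneg (A := α + β * x + γ * x ^ 2) (B := β + 2 * γ * x) (C := γ) fun b _ => by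
            have := hRpos (x + b)
            nlinarith
          nlinarith

end Pool.Agent.H74.FL
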