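import Pool.Agent.H74.FL.Kap

/-!
# MP_ae266a_pr (lower bound): expectation of the weight of one square, all sets of edges
-/

set_option autoImplicit false

namespace Pool.Agent.H74.FL

open H98.FPP MeasureTheory ProbabilityTheory Set

/-- weight of one square -/
noncomputable def G (T : Finset (Fin 4)) (x : Fin 4 → ℝ) : ℝ :=
  open Classical in if Cond T x then Real.exp (-5 * ∑ k ∈ T, x k) else 0

variable {Ω : Type*} [MeasurableSpace Ω] {P : Measure Ω} [IsProbabilityMeasure P] {X : Fin 4 → Ω → ℝ}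

theorem lint_four (hm : ∀ k, Measurable (X k)) (hi : iIndepFun X P) (hl : ∀ k, P.map (X k) = U)
    {i j k l : Fin 4} (hij : i ≠ j) (hik : i ≠ k) (hil : i ≠ l) (hjk : j ≠ k) (hjl : j ≠ l) (hkl : k ≠ l)
    {F : (ℝ × ℝ) × (ℝ × ℝ) → ENNReal} (hF : Measurable F) :
    ∫⁻ ω, F ((X i ω, X j ω), (X k ω, X l ω)) ∂P = ∫⁻ a, ∫⁻ b, ∫⁻ c, ∫⁻ d, F ((a, b), (c, d)) ∂U ∂U ∂U ∂U := by
  have h1 : P.map (fun ω => (X i ω, X j ω)) = U.prod U := by
    rw [(indepFun_iff_map_prod_eq_prod_map_map (hm i).aemeasurable (hm j).aemeasurable).1 (hi.indepFun hij), hl, hl]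
  have h2 : P.map (fun ω => (X k ω, X l ω)) = U.prod U := by
    rw [(indepFun_iff_map_prod_eq_prod_map_map (hm k).aemeasurable (hm l).aemeasurable).1 (hi.indepFun hkl), hl, hl]
  have h3 : P.map (fun ω => ((X i ω, X j ω), (X k ω, X l ω))) = (U.prod U).prod (U.prod U) := by
    rw [(indepFun_iff_map_prod_eq_prod_map_map ((hm i).prodMk (hm j)).aemeasurable
      ((hm k).prodMk (hm l)).aemeasurable).1 (hi.indepFun_prodMk_prodMk hm i j k l hik hil hjk hjl), h1, h2]
  rw [← lintegral_map hF (((hm i).prodMk (hm j)).prodMk ((hm k).prodMk (hm l))), h3,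
    lintegral_prod _ hF.aemeasurable]
  have h4 : Measurable fun p : ℝ × ℝ => ∫⁻ q, F (p, q) ∂(U.prod U) := hF.lintegral_prod_right'
  rw [lintegral_prod _ h4.aemeasurable]
  congr 1
  funext a
  congr 1
  funext b
  exact lintegral_prod (fun q => F ((a, b), q)) (hF.comp measurable_prodMk_left).aemeasurable

theorem m0_le : m0 ≤ (k1 : ℝ) := by
  have h := exp5
  unfold m0 k1
  push_cast
  linarith [h.1]

theorem m0_pos : 0 ≤ m0 := by
  have h := exp5
  unfold m0
  linarith [h.2]

theorem pair_le : m0 ^ 2 - m0 * m2 - m1 ^ 2 + m2 ^ 2 ≤ (k2 : ℝ) := by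
  have h := exp5
  unfold m0 m1 m2 k2
  push_cast
  nlinarith [h.1, h.2]

theorem triple_le : (9 / 4 * m0 ^ 3 - 9 * m1 * m0 ^ 2 + 3 * m2 * m0 ^ 2 + 6 * m1 ^ 2 * m0) / 2 ≤ (k3 : ℝ) := by
  have h0 := exp5
  have e1 : 0.1986523 ≤ m0 := by unfold m0; linarith [h0.2]
  have e2 : m0 ≤ 0.1986525 := by unfold m0; linarith [h0.1]
  have e3 : m1 ≤ 0.038384 := by unfold m1; linarith [h0.1]
  have e3' : 0.038382 ≤ m1 := by unfold m1; linarith [h0.2]
  have e4 : m2 ≤ 0.014006 := by unfold m2; linarith [h0.1]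
  have e5 : 0.014005 ≤ m2 := by unfold m2; linarith [h0.2]
  have e0 : 0 ≤ m0 := by linarith
  have f1 : 9 / 4 * m0 ^ 3 ≤ 9 / 4 * 0.1986525 ^ 3 := by gcongr
  have f2 : 9 * 0.038382 * 0.1986523 ^ 2 ≤ 9 * m1 * m0 ^ 2 := by gcongr
  have f3 : 3 * m2 * m0 ^ 2 ≤ 3 * 0.014006 * 0.1986525 ^ 2 := by gcongr
  have f4 : 6 * m1 ^ 2 * m0 ≤ 6 * 0.038384 ^ 2 * 0.1986525 := by gcongr
  unfold k3
  push_cast
  norm_num at f1 f2 f3 f4 ⊢
  linarith

theorem G_le (T : Finset (Fin 4)) (x : Fin 4 → ℝ) : G T x ≤ Real.exp (-5 * ∑ k ∈ T, x k) := by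
  unfold G
  split_ifs
  · exact le_rfl
  · exact (Real.exp_pos _).le

theorem G_nonneg (T : Finset (Fin 4)) (x : Fin 4 → ℝ) : 0 ≤ G T x := by
  unfold G
  split_ifs
  · exact (Real.exp_pos _).le
  · exact le_rfl

theorem meas_G (T : Finset (Fin 4)) : Measurable (G T) := by
  unfold G
  by_cases h : Adj T ∨ T.card = 3
  · have e : ∀ x, Cond T x ↔ ∑ k ∈ T, x k ≤ ∑ k ∈ Tᶜ, x k := fun x => ⟨fun h' => h' h, fun h' _ => h'⟩
    simp only [e]
    refine Measurable.ite (measurableSet_le (by fun_prop) (by fun_prop)) (by fun_prop) measurable_const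
  · have e : ∀ x, Cond T x := fun x h' => absurd h' h
    simp only [e, if_true]
    fun_prop

theorem lint_exp : ∫⁻ a, ENNReal.ofReal (Real.exp (-5 * a)) ∂U = ENNReal.ofReal m0 := by
  have := lint_quad (A := 1) (B := 0) (C := 0) (by intro x _; norm_num)
  simpa using this

theorem kap_nonneg (T : Finset (Fin 4)) : 0 ≤ kap T := by
  unfold kap
  split_ifs <;> norm_num [k1, k2, k3]

theorem lint_G (hm : ∀ k, Measurable (X k)) (hi : iIndepFun X P) (hl : ∀ k, P.map (X k) = U) (T : Finset (Fin 4)) :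
    ∫⁻ ω, ENNReal.ofReal (G T (fun k => X k ω)) ∂P ≤ ENNReal.ofReal (kap T : ℝ) := by
  have hc : ∀ T : Finset (Fin 4), ∃ i j k l : Fin 4, i ≠ j ∧ i ≠ k ∧ i ≠ l ∧ j ≠ k ∧ j ≠ l ∧ k ≠ l ∧
      (T = ∅ ∨ T = {i} ∨ (T = {i, j} ∧ Tᶜ = {k, l}) ∨ (T = {i, j, k} ∧ Tᶜ = {l}) ∨ T = {i, j, k, l}) := by
    decide
  obtain ⟨i, j, k, l, hij, hik, hil, hjk, hjl, hkl, h⟩ := hc T
  have hpos : ∀ᵐ ω ∂P, ∀ k, 0 ≤ X k ω := by
    rw [ae_all_iff]
    intro k
    have h2 : ∀ᵐ x ∂(P.map (X k)), x ∈ Icc (0 : ℝ) 1 := by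
      rw [hl k]
      exact ae_U
    filter_upwards [ae_of_ae_map (hm k).aemeasurable h2] with ω hω
    exact hω.1
  have hone : ∀ T : Finset (Fin 4), kap T = 1 → ∫⁻ ω, ENNReal.ofReal (G T (fun k => X k ω)) ∂P ≤ ENNReal.ofReal (kap T : ℝ) := by
    intro T hT
    rw [hT]
    calc _ ≤ ∫⁻ _, 1 ∂P := by
          refine lintegral_mono_ae ?_
          filter_upwards [hpos] with ω hω
          rw [← ENNReal.ofReal_one]
          refine ENNReal.ofReal_le_ofReal ((G_le _ _).trans ?_)
          rw [Real.exp_le_one_iff]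
          have : 0 ≤ ∑ k ∈ T, X k ω := Finset.sum_nonneg fun k _ => hω k
          linarith
      _ = _ := by simp
  rcases h with rfl | rfl | ⟨rfl, h2⟩ | ⟨rfl, h2⟩ | rfl
  · exact hone _ (by simp [kap])
  · have e1 : kap {i} = k1 := by simp [kap]
    rw [e1]
    have h4 := lint_four hm hi hl hij hik hil hjk hjl hkl
      (F := fun p : (ℝ × ℝ) × (ℝ × ℝ) => ENNReal.ofReal (Real.exp (-5 * p.1.1))) (by fun_prop)
    calc _ ≤ ∫⁻ ω, ENNReal.ofReal (Real.exp (-5 * X i ω)) ∂P := by
          refine lintegral_mono fun ω => ENNReal.ofReal_le_ofReal ((G_le _ _).trans (le_of_eq ?_))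
          rw [Finset.sum_singleton]
      _ = _ := h4
      _ ≤ _ := by
          simp only [lintegral_const, measure_univ, mul_one]
          rw [lint_exp]
          exact ENNReal.ofReal_le_ofReal m0_le
  · by_cases hA : Adj {i, j}
    · have e1 : kap {i, j} = k2 := by
        have : ({i, j} : Finset (Fin 4)).card = 2 := hA.1
        simp [kap, this, hA]
      rw [e1]
      have h4 := lint_four hm hi hl hij hik hil hjk hjl hkl
        (F := fun p : (ℝ × ℝ) × (ℝ × ℝ) => ENNReal.ofReal (if p.1.1 + p.1.2 ≤ p.2.1 + p.2.2 then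
          Real.exp (-5 * (p.1.1 + p.1.2)) else 0)) (ENNReal.measurable_ofReal.comp (Measurable.ite
            (measurableSet_le (by fun_prop) (by fun_prop)) (by fun_prop) measurable_const))
      calc _ = ∫⁻ ω, ENNReal.ofReal (if X i ω + X j ω ≤ X k ω + X l ω then
          Real.exp (-5 * (X i ω + X j ω)) else 0) ∂P := by
            refine lintegral_congr fun ω => ?_
            congr 1
            unfold G
            have e : Cond {i, j} (fun k => X k ω) ↔ X i ω + X j ω ≤ X k ω + X l ω := by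
              unfold Cond
              rw [h2, Finset.sum_pair hij, Finset.sum_pair hkl]
              simp [hA]
            simp only [e]
            rw [Finset.sum_pair hij]
        _ = _ := h4
        _ ≤ _ := pair_int
        _ ≤ _ := ENNReal.ofReal_le_ofReal pair_le
    · have e1 : kap {i, j} = k1 ^ 2 := by
        have : ({i, j} : Finset (Fin 4)).card = 2 := Finset.card_pair hij
        simp [kap, this, hA]
      rw [e1]
      have h4 := lint_four hm hi hl hij hik hil hjk hjl hkl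
        (F := fun p : (ℝ × ℝ) × (ℝ × ℝ) => ENNReal.ofReal (Real.exp (-5 * p.1.1)) *
          ENNReal.ofReal (Real.exp (-5 * p.1.2))) (by fun_prop)
      calc _ ≤ ∫⁻ ω, ENNReal.ofReal (Real.exp (-5 * X i ω)) * ENNReal.ofReal (Real.exp (-5 * X j ω)) ∂P := by
            refine lintegral_mono fun ω => ?_
            rw [← ENNReal.ofReal_mul (Real.exp_pos _).le, ← Real.exp_add]
            refine ENNReal.ofReal_le_ofReal ((G_le _ _).trans (le_of_eq ?_))
            rw [Finset.sum_pair hij, mul_add]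
        _ = _ := h4
        _ ≤ _ := by
            simp only [lintegral_const, measure_univ, mul_one]
            simp only [lintegral_const_mul' _ _ ENNReal.ofReal_ne_top, lint_exp]
            rw [lintegral_mul_const' _ _ ENNReal.ofReal_ne_top, lint_exp, ← ENNReal.ofReal_mul m0_pos]
            refine ENNReal.ofReal_le_ofReal ?_
            push_cast
            rw [sq]
            exact mul_le_mul m0_le m0_le m0_pos (by norm_num [k1])
  · have hcard : ({i, j, k} : Finset (Fin 4)).card = 3 := Finset.card_eq_three.2 ⟨i, j, k, hij, hik, hjk, rfl⟩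
    have hA : ¬ Adj {i, j, k} := by
      rintro ⟨h, -⟩
      omega
    have e1 : kap {i, j, k} = k3 := by
      simp [kap, hcard, hA]
    have hs : ∀ x : Fin 4 → ℝ, ∑ m ∈ ({i, j, k} : Finset (Fin 4)), x m = x i + x j + x k := by
      intro x
      rw [Finset.sum_insert (by simp [hij, hik]), Finset.sum_pair hjk, add_assoc]
    rw [e1]
    have h4 := lint_four hm hi hl hij hik hil hjk hjl hkl
      (F := fun p : (ℝ × ℝ) × (ℝ × ℝ) => ENNReal.ofReal (if p.1.1 + p.1.2 + p.2.1 ≤ p.2.2 then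
        Real.exp (-5 * (p.1.1 + p.1.2 + p.2.1)) else 0)) (ENNReal.measurable_ofReal.comp (Measurable.ite
          (measurableSet_le (by fun_prop) (by fun_prop)) (by fun_prop) measurable_const))
    calc _ = ∫⁻ ω, ENNReal.ofReal (if X i ω + X j ω + X k ω ≤ X l ω then
        Real.exp (-5 * (X i ω + X j ω + X k ω)) else 0) ∂P := by
          refine lintegral_congr fun ω => ?_
          congr 1
          unfold G
          have e : Cond {i, j, k} (fun k => X k ω) ↔ X i ω + X j ω + X k ω ≤ X l ω := by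
            unfold Cond
            rw [h2, hs, Finset.sum_singleton]
            simp [hcard]
          simp only [e]
          rw [hs]
      _ = _ := h4
      _ ≤ _ := triple_int
      _ ≤ _ := ENNReal.ofReal_le_ofReal triple_le
  · refine hone _ ?_
    have hcard : ({i, j, k, l} : Finset (Fin 4)).card = 4 := by
      rw [Finset.card_insert_of_notMem (by simp [hij, hik, hil])]
      rw [Finset.card_eq_three.2 ⟨j, k, l, hjk, hjl, hkl, rfl⟩]
    have hA : ¬ Adj {i, j, k, l} := by
      rintro ⟨h, -⟩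
      omega
    simp [kap, hcard, hA]

end Pool.Agent.H74.FL
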