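import Pool.Agent.H74.FL.Kap2
import Pool.Agent.H74.FL.Count

/-!
# MP_ae266a_pr (lower bound): the time constant is at least 0.2504
-/

set_option autoImplicit false

namespace Pool.Agent.H74.FL

open H98.FPP MeasureTheory ProbabilityTheory Set Filter Topology

theorem indep_curry {Ω ι κ : Type*} [MeasurableSpace Ω] {P : Measure Ω} {X : ι → κ → Ω → ℝ}
    (hX : ∀ i j, Measurable (X i j)) (h : iIndepFun (fun p : ι × κ => X p.1 p.2) P) :
    iIndepFun (fun (i : ι) ω (j : κ) => X i j ω) P := by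
  have := h.isProbabilityMeasure
  have : ∀ i j, IsProbabilityMeasure (P.map (X i j)) :=
    fun i j ↦ Measure.isProbabilityMeasure_map (hX i j).aemeasurable
  rw [iIndepFun_iff_map_fun_eq_infinitePi_map (by fun_prop)]
  have h1 := (iIndepFun_iff_map_fun_eq_infinitePi_map (by fun_prop)).1 h
  have h2 : ∀ i, P.map (fun ω (j : κ) => X i j ω) = Measure.infinitePi fun j => P.map (X i j) := by
    intro i
    have hinj : Function.Injective fun j : κ => (i, j) := fun j j' hj => congrArg Prod.snd hj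
    have h3 : iIndepFun (fun j : κ => X i j) P := h.precomp (g := fun j : κ => (i, j)) hinj
    exact (iIndepFun_iff_map_fun_eq_infinitePi_map (by fun_prop)).1 h3
  simp only [h2]
  rw [← Measure.infinitePi_map_curry (fun i j => P.map (X i j)), ← h1, Measure.map_map (by fun_prop) (by fun_prop)]
  rfl

/-- lower left corners of black squares -/
abbrev Ev : Type := {c : ℤ × ℤ // par c = true}

variable {Ω : Type*} [MeasurableSpace Ω] {P : Measure Ω} {w : Sym2 (ℤ × ℤ) → Ω → ℝ}

theorem indep_blocks (h : IsUnif P w) : iIndepFun (fun (c : Ev) ω (k : Fin 4) => w (bl c.1 k) ω) P := by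
  refine indep_curry (X := fun (c : Ev) (k : Fin 4) => w (bl c.1 k)) (fun c k => h.meas _ (bl_mem _ _)) ?_
  have hinj : Function.Injective fun p : Ev × Fin 4 => (⟨bl p.1.1 p.2, bl_mem _ _⟩ : lattice.edgeSet) := by
    rintro ⟨c, k⟩ ⟨c', k'⟩ hp
    obtain ⟨h1, h2⟩ := bl_inj c.2 c'.2 (congrArg Subtype.val hp)
    rw [Prod.mk.injEq]
    exact ⟨Subtype.ext h1, h2⟩
  exact h.indep.precomp hinj

theorem indep_block (h : IsUnif P w) {c : ℤ × ℤ} (hc : par c = true) : iIndepFun (fun k : Fin 4 => w (bl c k)) P := by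
  have hinj : Function.Injective fun k : Fin 4 => (⟨bl c k, bl_mem _ _⟩ : lattice.edgeSet) := by
    intro k k' hk
    exact (bl_inj hc hc (congrArg Subtype.val hk)).2
  exact h.indep.precomp hinj

/-- the black squares of a path -/
noncomputable def lamE (v : ℤ × ℤ) (l : List (Fin 4)) : Finset Ev := (lam v l).subtype fun c => par c = true

theorem path_int [IsProbabilityMeasure P] (h : IsUnif P w) {v : ℤ × ℤ} {l : List (Fin 4)} (hn : (verts v l).Nodup) :
    ∫⁻ ω, ∏ c ∈ lamE v l, ENNReal.ofReal (G (S v l c.1) (fun k => w (bl c.1 k) ω)) ∂P ≤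
      ENNReal.ofReal (wt (par v) l : ℝ) := by
  have hX := (indep_blocks h).comp (fun c x => ENNReal.ofReal (G (S v l c.1) x)) fun c =>
    ENNReal.measurable_ofReal.comp (meas_G _)
  rw [lintegral_prod_eq_prod_lintegral_of_indepFun (lamE v l)
    (fun c ω => ENNReal.ofReal (G (S v l c.1) (fun k => w (bl c.1 k) ω))) hX fun c =>
      ENNReal.measurable_ofReal.comp ((meas_G _).comp (measurable_pi_lambda _ fun k => h.meas _ (bl_mem _ _)))]
  calc _ ≤ ∏ c ∈ lamE v l, ENNReal.ofReal (kap (S v l c.1) : ℝ) := by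
        refine Finset.prod_le_prod' fun c _ => ?_
        exact lint_G (X := fun k => w (bl c.1 k)) (fun k => h.meas _ (bl_mem _ _)) (indep_block h c.2)
          (fun k => h.law _ (bl_mem _ _)) _
    _ = _ := by
        rw [← prod_kap hn (fun c hc => lam_even hc) subset_rfl, Rat.cast_prod,
          ← ENNReal.ofReal_prod_of_nonneg fun c _ => by exact_mod_cast kap_nonneg _]
        congr 1
        exact Finset.prod_subtype_of_mem (fun c => ((kap (S v l c) : ℚ) : ℝ)) fun c hc => lam_even hc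

theorem prod_G {u : Sym2 (ℤ × ℤ) → ℝ} {v : ℤ × ℤ} {l : List (Fin 4)} (hn : (verts v l).Nodup) (ho : Opt u v l) :
    ∏ c ∈ lamE v l, G (S v l c.1) (fun k => u (bl c.1 k)) = Real.exp (-5 * cost u v l) := by
  have h1 : ∀ c : Ev, G (S v l c.1) (fun k => u (bl c.1 k)) = Real.exp (-5 * ∑ k ∈ S v l c.1, u (bl c.1 k)) := by
    intro c
    unfold G
    rw [if_pos (cond_of_opt hn ho c.2)]
  simp only [h1]
  rw [← Real.exp_sum, ← Finset.mul_sum, ← cost_eq u hn (fun c hc => lam_even hc) subset_rfl]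
  congr 2
  exact Finset.sum_subtype_of_mem (fun c => ∑ k ∈ S v l c, u (bl c k)) fun c hc => lam_even hc

/-- the set of good events for one path -/
def A (w : Sym2 (ℤ × ℤ) → Ω → ℝ) (x : ℝ) (n : ℕ) (l : List (Fin 4)) : Set Ω :=
  {ω | (∀ e ∈ lattice.edgeSet, 0 ≤ w e ω) ∧ Opt (fun e => w e ω) (0, 0) l ∧ ends (0, 0) l = ((n : ℤ), 0) ∧
    cost (fun e => w e ω) (0, 0) l < x * n}

theorem meas_A [IsProbabilityMeasure P] (h : IsUnif P w) (x : ℝ) (n : ℕ) (l : List (Fin 4)) :
    P (A w x n l) ≤ ENNReal.ofReal (Real.exp (5 * (x * n)) / (y : ℝ) ^ n * ((wt true l * yl l : ℚ) : ℝ)) := by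
  by_cases he : ends (0, 0) l = ((n : ℤ), 0)
  swap
  · have : A w x n l = ∅ := by
      ext ω
      simp only [mem_empty_iff_false, iff_false]
      exact fun h' => he h'.2.2.1
    rw [this, measure_empty]
    exact zero_le
  by_cases hn : (verts (0, 0) l).Nodup
  swap
  · have : A w x n l = ∅ := by
      ext ω
      simp only [mem_empty_iff_false, iff_false]
      exact fun h' => hn (opt_nodup h'.1 h'.2.1)
    rw [this, measure_empty]
    exact zero_le
  have hy : (0 : ℝ) < (y : ℝ) := by norm_num [y]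
  have h1 : A w x n l ⊆ {ω | 1 ≤ ENNReal.ofReal (Real.exp (5 * (x * n))) *
      ∏ c ∈ lamE (0, 0) l, ENNReal.ofReal (G (S (0, 0) l c.1) (fun k => w (bl c.1 k) ω))} := by
    rintro ω ⟨h2, h3, -, h5⟩
    rw [mem_ofPred_eq, ← ENNReal.ofReal_prod_of_nonneg fun c _ => G_nonneg _ _, prod_G hn h3,
      ← ENNReal.ofReal_mul (Real.exp_pos _).le, ← Real.exp_add, ← ENNReal.ofReal_one]
    refine ENNReal.ofReal_le_ofReal ?_
    rw [Real.one_le_exp_iff]
    linarith
  refine (measure_mono h1).trans ?_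
  have hmeas : Measurable fun ω => ENNReal.ofReal (Real.exp (5 * (x * n))) *
      ∏ c ∈ lamE (0, 0) l, ENNReal.ofReal (G (S (0, 0) l c.1) (fun k => w (bl c.1 k) ω)) := by
    refine Measurable.const_mul (Finset.measurable_prod _ fun c _ => ?_) _
    exact ENNReal.measurable_ofReal.comp ((meas_G _).comp (measurable_pi_lambda _ fun k => h.meas _ (bl_mem _ _)))
  refine (meas_ge_le_lintegral_div hmeas.aemeasurable one_ne_zero ENNReal.one_ne_top).trans ?_
  rw [ENNReal.div_eq_inv_mul, inv_one, one_mul, lintegral_const_mul' _ _ ENNReal.ofReal_ne_top]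
  calc _ ≤ ENNReal.ofReal (Real.exp (5 * (x * n))) * ENNReal.ofReal (wt (par (0, 0)) l : ℝ) := by
        gcongr
        exact path_int h hn
    _ = _ := by
        rw [← ENNReal.ofReal_mul (Real.exp_pos _).le]
        congr 1
        have e1 : yl l = y ^ n := by
          rw [yl_eq (0, 0) l, he]
          simp
        have e2 : par (0, 0) = true := by decide
        rw [e1, e2]
        push_cast
        field_simp

theorem meas_lt [IsProbabilityMeasure P] (h : IsUnif P w) (x : ℝ) (n : ℕ) :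
    P {ω | passage (fun e => w e ω) n < x * n} ≤ ENNReal.ofReal (400000 * (Real.exp (5 * x) / (y : ℝ)) ^ n) := by
  have hy : (0 : ℝ) < (y : ℝ) := by norm_num [y]
  have h1 : {ω | passage (fun e => w e ω) n < x * n} ⊆ {ω | ¬ ∀ e ∈ lattice.edgeSet, w e ω ∈ Ico (0 : ℝ) 1} ∪
      ⋃ m : ℕ, ⋃ l ∈ lists m, A w x n l := by
    intro ω hω
    by_cases hg : ∀ e ∈ lattice.edgeSet, w e ω ∈ Ico (0 : ℝ) 1
    · right
      have hω' : passage (fun e => w e ω) n < x * n := hω
      unfold passage at hω'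
      have := walk_exists n
      obtain ⟨p, hp⟩ := exists_lt_of_ciInf_lt hω'
      obtain ⟨l₀, h2, h3⟩ := exists_list (fun e => w e ω) p
      rw [← h3] at hp
      obtain ⟨l, h4, h5, h6⟩ := exists_opt h2 hp
      rw [mem_iUnion]
      refine ⟨l.length, ?_⟩
      rw [mem_iUnion₂]
      exact ⟨l, mem_lists l, fun e he => (hg e he).1, h6, h4, h5⟩
    · exact Or.inl hg
  have h0 : P {ω | ¬ ∀ e ∈ lattice.edgeSet, w e ω ∈ Ico (0 : ℝ) 1} = 0 := h.ae_mem
  refine (measure_mono h1).trans ((measure_union_le _ _).trans ?_)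
  rw [h0, zero_add]
  set K : ℝ := Real.exp (5 * (x * n)) / (y : ℝ) ^ n with hK
  have hK0 : 0 ≤ K := by positivity
  have h2 : ∀ m, P (⋃ l ∈ lists m, A w x n l) ≤ ENNReal.ofReal (K * 20) * ENNReal.ofReal (99995 / 100000) ^ m := by
    intro m
    refine (measure_biUnion_finset_le _ _).trans ?_
    calc _ ≤ ∑ l ∈ lists m, ENNReal.ofReal (K * ((wt true l * yl l : ℚ) : ℝ)) :=
          Finset.sum_le_sum fun l _ => meas_A h x n l
      _ = ENNReal.ofReal (∑ l ∈ lists m, K * ((wt true l * yl l : ℚ) : ℝ)) := by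
          rw [ENNReal.ofReal_sum_of_nonneg]
          intro l _
          refine mul_nonneg hK0 ?_
          exact_mod_cast mul_nonneg (wt_nonneg _ _) (yl_pos _).le
      _ ≤ ENNReal.ofReal (K * 20 * (99995 / 100000) ^ m) := by
          refine ENNReal.ofReal_le_ofReal ?_
          rw [← Finset.mul_sum, mul_assoc]
          refine mul_le_mul_of_nonneg_left ?_ hK0
          have h3 : ((∑ l ∈ lists m, wt true l * yl l : ℚ) : ℝ) ≤ ((20 * (99995 / 100000) ^ m : ℚ) : ℝ) :=
            Rat.cast_le.2 (sum_wt m true)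
          rw [Rat.cast_sum] at h3
          refine h3.trans (le_of_eq ?_)
          push_cast
          ring
      _ = _ := by
          rw [ENNReal.ofReal_mul (by positivity), ENNReal.ofReal_pow (by positivity)]
  refine (measure_iUnion_le _).trans ((ENNReal.tsum_le_tsum h2).trans ?_)
  rw [ENNReal.tsum_mul_left, ENNReal.tsum_geometric]
  have h3 : (1 - ENNReal.ofReal (99995 / 100000))⁻¹ = ENNReal.ofReal 20000 := by
    rw [← ENNReal.ofReal_one, ← ENNReal.ofReal_sub _ (by norm_num), ← ENNReal.ofReal_inv_of_pos (by norm_num)]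
    norm_num
  rw [h3, ← ENNReal.ofReal_mul (by positivity)]
  refine ENNReal.ofReal_le_ofReal (le_of_eq ?_)
  rw [hK, div_pow, ← Real.exp_nat_mul]
  ring_nf

theorem exp_bd : Real.exp (5 * 0.2504) < (y : ℝ) := by
  have h1 := Real.exp_one_lt_d9
  have h2 : Real.exp 0.252 ≤ 1.2866 := by
    have := Real.exp_bound' (x := 0.252) (by norm_num) (by norm_num) (n := 6) (by norm_num)
    refine this.trans ?_
    norm_num [Finset.sum_range_succ, Nat.factorial]
  have e : (5 * 0.2504 : ℝ) = 1 + 0.252 := by norm_num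
  rw [e, Real.exp_add]
  calc Real.exp 1 * Real.exp 0.252 ≤ 2.7182818286 * 1.2866 := by gcongr
    _ < _ := by norm_num [y]

theorem IsUnif_lower [IsProbabilityMeasure P] (h : IsUnif P w) {τ : ℝ}
    (hτ : Tendsto (fun m : ℕ => (∫ ω, passage (fun e => w e ω) m ∂P) / m) atTop (𝓝 τ)) : 0.2504 ≤ τ := by
  have hy : (0 : ℝ) < (y : ℝ) := by norm_num [y]
  set r : ℝ := Real.exp (5 * 0.2504) / (y : ℝ) with hr
  have hr0 : 0 ≤ r := by positivity
  have hr1 : r < 1 := by
    rw [hr, div_lt_one hy]
    exact exp_bd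
  have h1 : Tendsto (fun n : ℕ => 0.2504 * (1 - 400000 * r ^ n)) atTop (𝓝 (0.2504 * (1 - 400000 * 0))) :=
    ((tendsto_pow_atTop_nhds_zero_of_lt_one hr0 hr1).const_mul _ |>.const_sub _).const_mul _
  have h2 : (0.2504 : ℝ) * (1 - 400000 * 0) = 0.2504 := by norm_num
  rw [h2] at h1
  refine le_of_tendsto_of_tendsto h1 hτ ?_
  filter_upwards [eventually_gt_atTop 0] with n hn
  have hn' : (0 : ℝ) < n := by exact_mod_cast hn
  rw [le_div_iff₀ hn']
  have hms : MeasurableSet {ω | passage (fun e => w e ω) n < 0.2504 * n} :=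
    measurableSet_lt (h.meas_passage n) measurable_const
  have h3 : (P {ω | passage (fun e => w e ω) n < 0.2504 * n}).toReal ≤ 400000 * r ^ n := by
    refine ENNReal.toReal_le_of_le_ofReal (by positivity) (meas_lt h 0.2504 n)
  have h4 : ∫ ω, (0.2504 * n - {ω | passage (fun e => w e ω) n < 0.2504 * n}.indicator (fun _ => 0.2504 * (n : ℝ)) ω) ∂P ≤
      ∫ ω, passage (fun e => w e ω) n ∂P := by
    refine integral_mono_ae ((integrable_const _).sub ((integrable_const _).indicator hms)) (h.integrable n) ?_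
    filter_upwards [h.ae_mem] with ω hω
    by_cases hω' : passage (fun e => w e ω) n < 0.2504 * n
    · rw [indicator_of_mem (show ω ∈ {ω | passage (fun e => w e ω) n < 0.2504 * n} from hω'), sub_self]
      exact passage_nonneg (fun e he => (hω e he).1) n
    · rw [indicator_of_notMem (show ω ∉ {ω | passage (fun e => w e ω) n < 0.2504 * n} from hω'), sub_zero]
      exact not_lt.1 hω'
  rw [integral_sub (integrable_const _) ((integrable_const _).indicator hms), integral_indicator_const _ hms,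
    integral_const] at h4
  simp only [probReal_univ, smul_eq_mul, one_mul] at h4
  refine le_trans ?_ h4
  have h5 : P.real {ω | passage (fun e => w e ω) n < 0.2504 * n} ≤ 400000 * r ^ n := h3
  nlinarith

end Pool.Agent.H74.FL
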