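import Pool.Agent.H98.FPP.Prob

/-!
# MP_ae266a_pr (lower bound): paths as lists of directions, locally optimal paths
-/

set_option autoImplicit false

namespace Pool.Agent.H74.FL

open H98.FPP

/-- unit vectors: 0 = east, 1 = north, 2 = west, 3 = south -/
def vec : Fin 4 → ℤ × ℤ := ![(1, 0), (0, 1), (-1, 0), (0, -1)]

theorem vec_opp (d : Fin 4) : vec d + vec (d + 2) = 0 := by
  fin_cases d <;> decide

/-- the final vertex -/
def ends : ℤ × ℤ → List (Fin 4) → ℤ × ℤ
  | v, [] => v
  | v, d :: l => ends (v + vec d) l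

/-- the cost -/
def cost (w : Sym2 (ℤ × ℤ) → ℝ) : ℤ × ℤ → List (Fin 4) → ℝ
  | _, [] => 0
  | v, d :: l => w s(v, v + vec d) + cost w (v + vec d) l

/-- the vertices -/
def verts : ℤ × ℤ → List (Fin 4) → List (ℤ × ℤ)
  | v, [] => [v]
  | v, d :: l => v :: verts (v + vec d) l

/-- the edges -/
def ed : ℤ × ℤ → List (Fin 4) → List (Sym2 (ℤ × ℤ))
  | _, [] => []
  | v, d :: l => s(v, v + vec d) :: ed (v + vec d) l

theorem edge_mem (v : ℤ × ℤ) (d : Fin 4) : s(v, v + vec d) ∈ lattice.edgeSet := by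
  rw [SimpleGraph.mem_edgeSet]
  show |v.1 - (v + vec d).1| + |v.2 - (v + vec d).2| = 1
  fin_cases d <;> simp [vec]

theorem adj_iff {u v : ℤ × ℤ} : lattice.Adj u v ↔ ∃ d, v = u + vec d := by
  constructor
  · intro h
    have h' : |u.1 - v.1| + |u.2 - v.2| = 1 := h
    obtain ⟨a, b⟩ := u
    obtain ⟨c, e⟩ := v
    simp only at h'
    have : (c = a + 1 ∧ e = b) ∨ (c = a ∧ e = b + 1) ∨ (c = a - 1 ∧ e = b) ∨ (c = a ∧ e = b - 1) := by
      rcases abs_cases (a - c) with h1 | h1 <;> rcases abs_cases (b - e) with h2 | h2 <;> omega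
    rcases this with ⟨h1, h2⟩ | ⟨h1, h2⟩ | ⟨h1, h2⟩ | ⟨h1, h2⟩
    · exact ⟨0, by simp [vec, h1, h2]⟩
    · exact ⟨1, by simp [vec, h1, h2]⟩
    · exact ⟨2, by simp [vec, h1, h2, sub_eq_add_neg]⟩
    · exact ⟨3, by simp [vec, h1, h2, sub_eq_add_neg]⟩
  · rintro ⟨d, rfl⟩
    exact edge_mem u d

theorem exists_list (w : Sym2 (ℤ × ℤ) → ℝ) {u v : ℤ × ℤ} (p : lattice.Walk u v) :
    ∃ l, ends u l = v ∧ cost w u l = (p.edges.map w).sum := by
  induction p with
  | nil => exact ⟨[], rfl, by simp [cost]⟩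
  | cons h p ih =>
    obtain ⟨d, rfl⟩ := adj_iff.1 h
    obtain ⟨l, h1, h2⟩ := ih
    exact ⟨d :: l, h1, by simp [cost, h2]⟩

theorem cost_nonneg {w : Sym2 (ℤ × ℤ) → ℝ} (hw : ∀ e ∈ lattice.edgeSet, 0 ≤ w e) (v : ℤ × ℤ) (l : List (Fin 4)) :
    0 ≤ cost w v l := by
  induction l generalizing v with
  | nil => exact le_rfl
  | cons d l ih => exact add_nonneg (hw _ (edge_mem v d)) (ih _)

/-- optimal among the lists which are not longer; strictly better than the shorter ones -/
def Opt (w : Sym2 (ℤ × ℤ) → ℝ) (v : ℤ × ℤ) (l : List (Fin 4)) : Prop :=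
  ∀ l', ends v l' = ends v l → (l'.length ≤ l.length → cost w v l ≤ cost w v l') ∧
    (l'.length < l.length → cost w v l < cost w v l')

theorem opt_tail {w : Sym2 (ℤ × ℤ) → ℝ} {v : ℤ × ℤ} {d : Fin 4} {l : List (Fin 4)} (h : Opt w v (d :: l)) :
    Opt w (v + vec d) l := by
  intro l' hl'
  obtain ⟨h1, h2⟩ := h (d :: l') hl'
  constructor
  · intro h3
    have := h1 (by simpa using h3)
    simpa [cost] using this
  · intro h3
    have := h2 (by simpa using h3)
    simpa [cost] using this

theorem exists_opt {w : Sym2 (ℤ × ℤ) → ℝ} {v z : ℤ × ℤ} {x : ℝ} {l₀ : List (Fin 4)} (h0 : ends v l₀ = z)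
    (hx : cost w v l₀ < x) : ∃ l, ends v l = z ∧ cost w v l < x ∧ Opt w v l := by
  have hfin : {l : List (Fin 4) | l.length ≤ l₀.length ∧ ends v l = z}.Finite :=
    (List.finite_length_le (Fin 4) l₀.length).subset fun l h => h.1
  obtain ⟨l, ⟨hl1, hl2⟩, hmin⟩ := Set.exists_min_image _ (fun l => toLex (cost w v l, l.length)) hfin
    ⟨l₀, le_rfl, h0⟩
  have hm : ∀ l', l'.length ≤ l₀.length → ends v l' = z → cost w v l < cost w v l' ∨
      cost w v l = cost w v l' ∧ l.length ≤ l'.length := by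
    intro l' h1 h2
    have := hmin l' ⟨h1, h2⟩
    rwa [Prod.Lex.toLex_le_toLex] at this
  refine ⟨l, hl2, ?_, ?_⟩
  · rcases hm l₀ le_rfl h0 with h | h
    · exact h.trans hx
    · rw [h.1]
      exact hx
  · intro l' hl'
    constructor
    · intro h3
      rcases hm l' (h3.trans hl1) (hl'.trans hl2) with h | h
      · exact h.le
      · exact h.1.le
    · intro h3
      rcases hm l' (h3.le.trans hl1) (hl'.trans hl2) with h | h
      · exact h
      · omega

theorem split_verts {u z : ℤ × ℤ} {l : List (Fin 4)} (h : z ∈ verts u l) :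
    ∃ q, ends z q = ends u l ∧ q.length ≤ l.length ∧ ∀ w : Sym2 (ℤ × ℤ) → ℝ, (∀ e ∈ lattice.edgeSet, 0 ≤ w e) →
      cost w z q ≤ cost w u l := by
  induction l generalizing u with
  | nil =>
    have : z = u := by simpa [verts] using h
    subst this
    exact ⟨[], rfl, le_rfl, fun w _ => le_rfl⟩
  | cons d l ih =>
    rcases List.mem_cons.1 h with h | h
    · subst h
      exact ⟨d :: l, rfl, le_rfl, fun w _ => le_rfl⟩
    · obtain ⟨q, h1, h2, h3⟩ := ih h
      refine ⟨q, h1, by simp only [List.length_cons]; omega, fun w hw => (h3 w hw).trans ?_⟩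
      have := hw _ (edge_mem u d)
      simp only [cost]
      linarith

theorem opt_nodup {w : Sym2 (ℤ × ℤ) → ℝ} (hw : ∀ e ∈ lattice.edgeSet, 0 ≤ w e) {v : ℤ × ℤ} {l : List (Fin 4)}
    (h : Opt w v l) : (verts v l).Nodup := by
  induction l generalizing v with
  | nil => simp [verts]
  | cons d l ih =>
    rw [verts, List.nodup_cons]
    refine ⟨fun hv => ?_, ih (opt_tail h)⟩
    obtain ⟨q, h1, h2, h3⟩ := split_verts hv
    have h4 := (h q h1).2 (by simp only [List.length_cons]; omega)
    have h5 := h3 w hw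
    have h6 := hw _ (edge_mem v d)
    simp only [cost] at h4
    linarith

/-- two consecutive edges are not more expensive than the other two edges of the square -/
theorem opt_swap {w : Sym2 (ℤ × ℤ) → ℝ} {v : ℤ × ℤ} {a b : Fin 4} {l : List (Fin 4)} (h : Opt w v (a :: b :: l)) :
    w s(v, v + vec a) + w s(v + vec a, v + vec a + vec b) ≤ w s(v, v + vec b) + w s(v + vec b, v + vec b + vec a) := by
  have e : ends v (b :: a :: l) = ends v (a :: b :: l) := by
    simp only [ends]
    rw [add_right_comm]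
  have := (h _ e).1 (by simp)
  simp only [cost] at this
  rw [add_right_comm v (vec b) (vec a)] at this ⊢
  linarith

/-- three consecutive edges of a square are not more expensive than the fourth one -/
theorem opt_uturn {w : Sym2 (ℤ × ℤ) → ℝ} {v : ℤ × ℤ} {a b : Fin 4} {l : List (Fin 4)}
    (h : Opt w v (a :: b :: (a + 2) :: l)) :
    w s(v, v + vec a) + w s(v + vec a, v + vec a + vec b) +
      w s(v + vec a + vec b, v + vec a + vec b + vec (a + 2)) ≤ w s(v, v + vec b) := by
  have e1 : v + vec a + vec b + vec (a + 2) = v + vec b := by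
    have := vec_opp a
    rw [add_right_comm v, add_assoc (v + vec b), this, add_zero]
  have e : ends v (b :: l) = ends v (a :: b :: (a + 2) :: l) := by
    simp only [ends]
    rw [e1]
  have := (h _ e).2 (by simp)
  simp only [cost] at this
  rw [e1] at this ⊢
  linarith

theorem mem_verts_of_ed {e : Sym2 (ℤ × ℤ)} {u z : ℤ × ℤ} {l : List (Fin 4)} (h : e ∈ ed u l) (hz : z ∈ e) :
    z ∈ verts u l := by
  induction l generalizing u with
  | nil => simp [ed] at h
  | cons d l ih =>
    rcases List.mem_cons.1 h with h | h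
    · subst h
      rcases Sym2.mem_iff.1 hz with h | h
      · subst h
        exact List.mem_cons_self
      · subst h
        refine List.mem_cons_of_mem _ ?_
        cases l <;> simp [verts]
    · exact List.mem_cons_of_mem _ (ih h)

theorem ed_first {e : Sym2 (ℤ × ℤ)} {u : ℤ × ℤ} {l : List (Fin 4)} (hn : (verts u l).Nodup) (h : e ∈ ed u l)
    (hu : u ∈ e) : ∃ d l', l = d :: l' ∧ e = s(u, u + vec d) := by
  cases l with
  | nil => simp [ed] at h
  | cons d l =>
    refine ⟨d, l, rfl, ?_⟩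
    rcases List.mem_cons.1 h with h | h
    · exact h
    · rw [verts, List.nodup_cons] at hn
      exact absurd (mem_verts_of_ed h hu) hn.1

end Pool.Agent.H74.FL
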