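import Pool.Agent.H74.FL.Core

/-!
# MP_ae266a_pr (lower bound): product of the weights of the black squares
-/

set_option autoImplicit false

namespace Pool.Agent.H74.FL

open H98.FPP

/-- bound for one edge -/
def k1 : ℚ := 198653 / 1000000

/-- bound for two adjacent edges of a square -/
def k2 : ℚ := 35405 / 1000000

/-- bound for three edges of a square -/
def k3 : ℚ := 372 / 100000

/-- two adjacent edges -/
def Adj (T : Finset (Fin 4)) : Prop := T.card = 2 ∧ T ≠ {0, 2} ∧ T ≠ {1, 3}

instance (T : Finset (Fin 4)) : Decidable (Adj T) := by unfold Adj; infer_instance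

/-- weight of a set of edges of a square -/
def kap (T : Finset (Fin 4)) : ℚ :=
  if T = ∅ then 1 else if T.card = 1 then k1 else if Adj T then k2 else if T.card = 2 then k1 ^ 2 else
    if T.card = 3 then k3 else 1

/-- ratio of weights -/
def rat : ℕ → ℚ
  | 1 => k1
  | 2 => k2 / k1
  | 3 => k3 / k2
  | _ => 0

/-- number of steps at the front which are in the same black square -/
def run : Bool → List (Fin 4) → ℕ
  | _, [] => 0
  | b, d :: l => if l.head? = some (tow b d) then run (!b) l + 1 else 1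

/-- the weight of a path -/
def wt : Bool → List (Fin 4) → ℚ
  | _, [] => 1
  | b, d :: l => if l.head? = some (d + 2) then 0 else rat (run b (d :: l)) * wt (!b) l

/-- the black squares of a path -/
def lam : ℤ × ℤ → List (Fin 4) → Finset (ℤ × ℤ)
  | _, [] => ∅
  | v, d :: l => insert (v - off (par v) d) (lam (v + vec d) l)

theorem lam_even {v : ℤ × ℤ} {l : List (Fin 4)} {c : ℤ × ℤ} (h : c ∈ lam v l) : par c = true := by
  induction l generalizing v with
  | nil => simp [lam] at h
  | cons d l ih =>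
    rw [lam, Finset.mem_insert] at h
    rcases h with rfl | h
    · exact par_blk v d
    · exact ih h

/-- the three cases -/
theorem cases3 {v : ℤ × ℤ} {d : Fin 4} {l : List (Fin 4)} (hn : (verts v (d :: l)).Nodup) :
    (run (par v) (d :: l) = 1 ∧ S (v + vec d) l (v - off (par v) d) ⊆ {idx (par v) d + 2}) ∨
    (run (par v) (d :: l) = 2 ∧ S (v + vec d) l (v - off (par v) d) = {d + 1} ∧ ∃ l', l = tow (par v) d :: l') ∨
    (run (par v) (d :: l) = 3 ∧ S (v + vec d) l (v - off (par v) d) = {d + 1, idx (par v) d + 2} ∧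
      ∃ l', l = tow (par v) d :: (d + 2) :: l') := by
  by_cases h1 : l.head? = some (tow (par v) d)
  · right
    cases l with
    | nil => simp at h1
    | cons d' l =>
      have h' : d' = tow (par v) d := by simpa using h1
      subst h'
      by_cases h2 : l.head? = some (d + 2)
      · right
        cases l with
        | nil => simp at h2
        | cons d'' l =>
          have h' : d'' = d + 2 := by simpa using h2
          subst h'
          obtain ⟨h3, h4⟩ := core_C (par v) hn
          refine ⟨?_, h3, l, rfl⟩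
          simp [run, tow_two, tow_three, h4]
      · left
        refine ⟨?_, core_B (par v) hn h2, l, rfl⟩
        simp [run, tow_two, h2]
  · left
    refine ⟨?_, core_A hn (par v) h1⟩
    simp [run, h1]

theorem kap_A {a : Fin 4} {T : Finset (Fin 4)} (h : T ⊆ {a + 2}) : kap (insert a T) = k1 * kap T := by
  rw [Finset.subset_singleton_iff] at h
  rcases h with rfl | rfl
  · have h1 : kap (insert a ∅) = k1 := by
      simp [kap]
    have h2 : kap ∅ = 1 := by simp [kap]
    rw [h1, h2, mul_one]
  · have h1 : ∀ a : Fin 4, kap {a, a + 2} = k1 ^ 2 := by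
      intro a
      have e1 : ∀ a : Fin 4, ({a, a + 2} : Finset (Fin 4)) ≠ ∅ ∧ ({a, a + 2} : Finset (Fin 4)).card = 2 ∧
        ¬ Adj {a, a + 2} := by decide
      obtain ⟨h3, h4, h5⟩ := e1 a
      simp [kap, h4, h5]
    have h2 : kap {a + 2} = k1 := by simp [kap]
    rw [h1, h2, sq]

theorem kap_B {a b : Fin 4} (h1 : b ≠ a) (h2 : b ≠ a + 2) : kap (insert a {b}) = k2 / k1 * kap {b} := by
  have e1 : ∀ a b : Fin 4, b ≠ a → b ≠ a + 2 → ({a, b} : Finset (Fin 4)).card = 2 ∧ Adj {a, b} := by decide
  obtain ⟨h4, h5⟩ := e1 a b h1 h2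
  have h3 : kap (insert a {b}) = k2 := by
    simp [kap, h4, h5]
  have h6 : kap {b} = k1 := by simp [kap]
  rw [h3, h6, div_mul_cancel₀]
  norm_num [k1]

theorem kap_C {a b : Fin 4} (h1 : b ≠ a) (h2 : b ≠ a + 2) : kap (insert a {b, a + 2}) = k3 / k2 * kap {b, a + 2} := by
  have e1 : ∀ a b : Fin 4, b ≠ a → b ≠ a + 2 → ({a, b, a + 2} : Finset (Fin 4)).card = 3 ∧
      ({b, a + 2} : Finset (Fin 4)).card = 2 ∧ Adj {b, a + 2} := by decide
  obtain ⟨h4, h5, h6⟩ := e1 a b h1 h2
  have h7 : ¬ Adj {a, b, a + 2} := by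
    rintro ⟨h, -⟩
    omega
  have h3 : kap (insert a {b, a + 2}) = k3 := by
    simp [kap, h4, h7]
  have h8 : kap {b, a + 2} = k2 := by simp [kap, h5, h6]
  rw [h3, h8, div_mul_cancel₀]
  norm_num [k2]

theorem prod_kap {v : ℤ × ℤ} {l : List (Fin 4)} (hn : (verts v l).Nodup) {L : Finset (ℤ × ℤ)}
    (hL : ∀ c ∈ L, par c = true) (hl : lam v l ⊆ L) : ∏ c ∈ L, kap (S v l c) = wt (par v) l := by
  induction l generalizing v with
  | nil =>
    refine Finset.prod_eq_one fun c _ => ?_
    have : S v [] c = ∅ := by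
      ext k
      simp [mem_S, ed]
    rw [this]
    simp [kap]
  | cons d l ih =>
    rw [lam, Finset.insert_subset_iff] at hl
    have ih' := ih (nodup_tail hn) hl.2
    rw [par_add] at ih'
    rw [wt, if_neg (no_back hn), ← ih', ← Finset.mul_prod_erase L _ hl.1, ← Finset.mul_prod_erase L _ hl.1, ← mul_assoc]
    congr 1
    · rw [S_cons (par_blk v d), if_pos rfl]
      rcases cases3 hn with ⟨h1, h2⟩ | ⟨h1, h2, -⟩ | ⟨h1, h2, -⟩
      · rw [h1, kap_A h2]
        rfl
      · rw [h1, h2, kap_B (idx_ne _ _).1 (idx_ne _ _).2]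
        rfl
      · rw [h1, h2, kap_C (idx_ne _ _).1 (idx_ne _ _).2]
        rfl
    · refine Finset.prod_congr rfl fun c hc => ?_
      rw [Finset.mem_erase] at hc
      rw [S_cons (hL c hc.2), if_neg hc.1]

theorem cost_eq (w : Sym2 (ℤ × ℤ) → ℝ) {v : ℤ × ℤ} {l : List (Fin 4)} (hn : (verts v l).Nodup) {L : Finset (ℤ × ℤ)}
    (hL : ∀ c ∈ L, par c = true) (hl : lam v l ⊆ L) : ∑ c ∈ L, ∑ k ∈ S v l c, w (bl c k) = cost w v l := by
  induction l generalizing v with
  | nil =>
    refine Finset.sum_eq_zero fun c _ => ?_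
    have : S v [] c = ∅ := by
      ext k
      simp [mem_S, ed]
    rw [this]
    simp
  | cons d l ih =>
    rw [lam, Finset.insert_subset_iff] at hl
    have ih' := ih (nodup_tail hn) hl.2
    rw [cost, ← ih', ← Finset.add_sum_erase L _ hl.1, ← Finset.add_sum_erase L _ hl.1, ← add_assoc]
    congr 1
    · rw [S_cons (par_blk v d), if_pos rfl, Finset.sum_insert (idx_notMem hn _), bl_zero]
    · refine Finset.sum_congr rfl fun c hc => ?_
      rw [Finset.mem_erase] at hc
      rw [S_cons (hL c hc.2), if_neg hc.1]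

/-- the condition in one square -/
def Cond (T : Finset (Fin 4)) (x : Fin 4 → ℝ) : Prop := (Adj T ∨ T.card = 3) → ∑ k ∈ T, x k ≤ ∑ k ∈ Tᶜ, x k

theorem cond_of_opt {w : Sym2 (ℤ × ℤ) → ℝ} {v : ℤ × ℤ} {l : List (Fin 4)} (hn : (verts v l).Nodup) (ho : Opt w v l)
    {c : ℤ × ℤ} (hc : par c = true) : Cond (S v l c) fun k => w (bl c k) := by
  induction l generalizing v with
  | nil =>
    have : S v [] c = ∅ := by
      ext k
      simp [mem_S, ed]
    rw [this]
    rintro (h | h)
    · simp [Adj] at h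
    · simp at h
  | cons d l ih =>
    rw [S_cons hc]
    split_ifs with h
    · subst h
      rcases cases3 hn with ⟨h1, h2⟩ | ⟨h1, h2, l', rfl⟩ | ⟨h1, h2, l', rfl⟩
      · have e1 : ∀ a : Fin 4, ∀ T ⊆ ({a + 2} : Finset (Fin 4)), ¬ (Adj (insert a T) ∨ (insert a T).card = 3) := by
          decide
        intro h3
        exact absurd h3 (e1 _ _ h2)
      · intro _
        rw [h2]
        have e1 : ∀ a b : Fin 4, b ≠ a → b ≠ a + 2 → ({a, b} : Finset (Fin 4))ᶜ = {a + 2, b + 2} := by decide
        have e2 : ∀ a : Fin 4, ∀ b : Fin 4, b ≠ a → b ≠ a + 2 → a ∉ ({b} : Finset (Fin 4)) ∧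
          a + 2 ∉ ({b + 2} : Finset (Fin 4)) := by decide
        obtain ⟨i1, i2⟩ := idx_ne (par v) d
        obtain ⟨h3, h4⟩ := e2 _ _ i1 i2
        rw [e1 _ _ i1 i2, Finset.sum_insert h3, Finset.sum_insert h4, Finset.sum_singleton, Finset.sum_singleton,
          bl_zero, bl_one, bl_two]
        have e3 : d + 1 + 2 = d + 3 := by
          rw [add_assoc]
          rfl
        rw [e3, bl_three]
        have := opt_swap ho
        have e4 : v + vec d + vec (tow (par v) d) + vec (d + 2) = v + vec (tow (par v) d) := by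
          rw [add_right_comm, add_assoc v, vec_opp, add_zero]
        rw [e4, Sym2.eq_swap (a := v + vec d + vec (tow (par v) d)), add_right_comm v (vec d)]
        rw [add_right_comm v (vec d)] at this
        linarith
      · intro _
        rw [h2]
        have e1 : ∀ a b : Fin 4, b ≠ a → b ≠ a + 2 → ({a, b, a + 2} : Finset (Fin 4))ᶜ = {b + 2} := by decide
        have e2 : ∀ a : Fin 4, ∀ b : Fin 4, b ≠ a → b ≠ a + 2 → a ∉ ({b, a + 2} : Finset (Fin 4)) ∧
          b ∉ ({a + 2} : Finset (Fin 4)) := by decide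
        obtain ⟨i1, i2⟩ := idx_ne (par v) d
        obtain ⟨h3, h4⟩ := e2 _ _ i1 i2
        rw [e1 _ _ i1 i2, Finset.sum_insert h3, Finset.sum_insert h4, Finset.sum_singleton, Finset.sum_singleton,
          bl_zero, bl_one, bl_two]
        have e3 : d + 1 + 2 = d + 3 := by
          rw [add_assoc]
          rfl
        rw [e3, bl_three]
        have := opt_uturn ho
        linarith
    · exact ih (nodup_tail hn) (opt_tail ho)

end Pool.Agent.H74.FL
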